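import Mathlib

/-!
# Operators on the tensor powers which are induced by an operator on the space
-/

set_option autoImplicit false
set_option linter.unusedSectionVars false

open Module TensorProduct

namespace Pool.Agent.N536.SL

variable {K : Type*} [Field K] {V : ℕ → Type*} [∀ n, AddCommGroup (V n)] [∀ n, Module K (V n)]
  (e : ∀ n, V 0 ⊗[K] V n ≃ₗ[K] V (n + 1))

/-- `x ↦ x ⊗ 1` -/
noncomputable def Rh (n : ℕ) : End K (V 0) →ₐ[K] End K (V (n + 1)) :=
  ((e n).conjAlgEquiv K).toAlgHom.comp (Module.End.rTensorAlgHom K (V 0) (V n))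

/-- `y ↦ 1 ⊗ y` -/
noncomputable def Lh (n : ℕ) : End K (V n) →ₐ[K] End K (V (n + 1)) :=
  ((e n).conjAlgEquiv K).toAlgHom.comp (Module.End.lTensorAlgHom K (V n) (V 0))

theorem Rh_apply (n : ℕ) (x : End K (V 0)) (a : V 0) (b : V n) :
    Rh e n x (e n (a ⊗ₜ b)) = e n (x a ⊗ₜ b) := by
  change e n (x.rTensor (V n) ((e n).symm (e n (a ⊗ₜ b)))) = _
  rw [LinearEquiv.symm_apply_apply, LinearMap.rTensor_tmul]

theorem Lh_apply (n : ℕ) (y : End K (V n)) (a : V 0) (b : V n) :
    Lh e n y (e n (a ⊗ₜ b)) = e n (a ⊗ₜ y b) := by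
  change e n (y.lTensor (V 0) ((e n).symm (e n (a ⊗ₜ b)))) = _
  rw [LinearEquiv.symm_apply_apply, LinearMap.lTensor_tmul]

theorem ext_e {n : ℕ} {W : Type*} [AddCommGroup W] [Module K W] {f g : V (n + 1) →ₗ[K] W}
    (h : ∀ a b, f (e n (a ⊗ₜ b)) = g (e n (a ⊗ₜ b))) : f = g := by
  have h1 : f ∘ₗ (e n).toLinearMap = g ∘ₗ (e n).toLinearMap := TensorProduct.ext' h
  ext v
  have h2 := LinearMap.congr_fun h1 ((e n).symm v)
  simpa using h2

theorem comm_RL (n : ℕ) (x : End K (V 0)) (y : End K (V n)) : Commute (Rh e n x) (Lh e n y) := by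
  refine ext_e e fun a b => ?_
  rw [Module.End.mul_apply, Module.End.mul_apply, Lh_apply, Rh_apply, Rh_apply, Lh_apply]

/-- The derivation of the tensor power which is induced by `x`. -/
noncomputable def D : ∀ n, End K (V 0) →ₗ[K] End K (V n)
  | 0 => LinearMap.id
  | n + 1 => (Rh e n).toLinearMap + (Lh e n).toLinearMap ∘ₗ D n

theorem D_zero (x : End K (V 0)) : D e 0 x = x := rfl

theorem D_succ (n : ℕ) (x : End K (V 0)) : D e (n + 1) x = Rh e n x + Lh e n (D e n x) := rfl

theorem D_commute {x y : End K (V 0)} (h : Commute x y) (n : ℕ) :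
    Commute (D e n x) (D e n y) := by
  induction n with
  | zero => exact h
  | succ n ih =>
    rw [D_succ, D_succ]
    have h1 : Commute (Rh e n x) (Rh e n y) := h.map (Rh e n)
    have h2 : Commute (Lh e n (D e n x)) (Lh e n (D e n y)) := ih.map (Lh e n)
    exact ((h1.add_right (comm_RL e n x _))).add_left
      (((comm_RL e n y _).symm).add_right h2)

theorem D_lie (x y : End K (V 0)) (n : ℕ) :
    D e n (x * y - y * x) = D e n x * D e n y - D e n y * D e n x := by
  induction n with
  | zero => rfl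
  | succ n ih =>
    rw [D_succ, D_succ, D_succ, ih]
    simp only [map_sub, map_mul, mul_add, add_mul]
    rw [(comm_RL e n x (D e n y)).eq, (comm_RL e n y (D e n x)).eq]
    abel

theorem D_nilpotent {x : End K (V 0)} (h : IsNilpotent x) (n : ℕ) : IsNilpotent (D e n x) := by
  induction n with
  | zero => exact h
  | succ n ih =>
    rw [D_succ]
    exact (comm_RL e n x _).isNilpotent_add (h.map (Rh e n)) (ih.map (Lh e n))

theorem semisimple_map {U U' : Type*} [AddCommGroup U] [Module K U] [AddCommGroup U'] [Module K U']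
    [FiniteDimensional K U] (f : End K U →ₐ[K] End K U') {x : End K U} (h : x.IsSemisimple) :
    (f x).IsSemisimple := by
  refine Module.End.isSemisimple_of_squarefree_aeval_eq_zero (p := minpoly K x)
    h.minpoly_squarefree ?_
  rw [Polynomial.aeval_algHom_apply, minpoly.aeval, map_zero]

variable [∀ n, FiniteDimensional K (V n)]

theorem D_semisimple [CharZero K] {x : End K (V 0)} (h : x.IsSemisimple) (n : ℕ) :
    (D e n x).IsSemisimple := by
  induction n with
  | zero => exact h
  | succ n ih =>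
    rw [D_succ]
    exact (semisimple_map (Rh e n) h).add_of_commute (comm_RL e n x _) (semisimple_map (Lh e n) ih)

/-- The nilpotent part of the induced operator is a polynomial in the induced operator. -/
theorem D_nil_part [CharZero K] {x n s : End K (V 0)} (hx : x = n + s) (hn : IsNilpotent n)
    (hs : s.IsSemisimple) (hc : Commute n s) (m : ℕ) :
    D e m n ∈ Algebra.adjoin K {D e m x} := by
  obtain ⟨n', hn', s', hs', hnil, hss, hxx⟩ :=
    Module.End.exists_isNilpotent_isSemisimple (f := D e m x)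
  have hc' : Commute n' s' := by
    refine Algebra.commute_of_mem_adjoin_singleton_of_commute hs' ?_
    exact (Algebra.commute_of_mem_adjoin_self hn').symm
  have h1 := Module.End.isNilpotent_isSemisimple_unique (D_nilpotent e hn m) (D_semisimple e hs m)
    hnil hss (D_commute e hc m) hc' (by rw [← map_add, ← hx, hxx])
  rw [h1.1]
  exact hn'

section group

variable {G : Type*} [Group G] (ρ : ∀ n, Representation K G (V n))

/-- The isomorphisms `e` are equivariant. -/
def Equi : Prop := ∀ n g a b, ρ (n + 1) g (e n (a ⊗ₜ b)) = e n (ρ 0 g a ⊗ₜ ρ n g b)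

variable {e ρ}

theorem rho_succ (h : Equi e ρ) (n : ℕ) (g : G) :
    ρ (n + 1) g = Rh e n (ρ 0 g) * Lh e n (ρ n g) := by
  refine ext_e e fun a b => ?_
  rw [Module.End.mul_apply, Lh_apply, Rh_apply, h]

theorem D_conj (h : Equi e ρ) (g : G) (x : End K (V 0)) (n : ℕ) :
    D e n (ρ 0 g * x * ρ 0 g⁻¹) = ρ n g * D e n x * ρ n g⁻¹ := by
  induction n with
  | zero => rfl
  | succ n ih =>
    refine ext_e e fun a b => ?_
    have h1 : D e (n + 1) (ρ 0 g * x * ρ 0 g⁻¹) (e n (a ⊗ₜ b)) =
        e n ((ρ 0 g * x * ρ 0 g⁻¹) a ⊗ₜ b) + e n (a ⊗ₜ (D e n (ρ 0 g * x * ρ 0 g⁻¹)) b) := by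
      rw [D_succ, LinearMap.add_apply, Rh_apply, Lh_apply]
    have hi : ∀ m (v : V m), ρ m g (ρ m g⁻¹ v) = v := by
      intro m v
      rw [← Module.End.mul_apply, ← map_mul, mul_inv_cancel, map_one, Module.End.one_apply]
    rw [h1, ih, Module.End.mul_apply, Module.End.mul_apply, Module.End.mul_apply,
      Module.End.mul_apply, Module.End.mul_apply, Module.End.mul_apply, h, D_succ,
      LinearMap.add_apply, Rh_apply, Lh_apply, map_add, h, h, hi, hi]

end group

end Pool.Agent.N536.SL
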