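import Pool.Agent.N536.SL.LieC
import Pool.Agent.N536.SL.Tower
import Pool.Agent.Y114.GF.Clifford

/-!
# The Lie algebra which respects all the stable subspaces of the tensor powers
-/

set_option autoImplicit false
set_option linter.unusedSectionVars false

open Module TensorProduct

namespace Pool.Agent.N536.SL

attribute [local instance 100] LieRing.ofAssociativeRing

variable {K : Type*} [Field K] [CharZero K] {V : ℕ → Type*} [∀ n, AddCommGroup (V n)]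
  [∀ n, Module K (V n)] [∀ n, FiniteDimensional K (V n)]
  (e : ∀ n, V 0 ⊗[K] V n ≃ₗ[K] V (n + 1)) {G : Type*} [Group G]
  (ρ : ∀ n, Representation K G (V n))

/-- The subspace is stable under a normal subgroup of finite index. -/
def FS (n : ℕ) (W : Submodule K (V n)) : Prop :=
  ∃ U : Subgroup G, U.Normal ∧ U.FiniteIndex ∧ ∀ u ∈ U, ∀ w ∈ W, ρ n u w ∈ W

/-- The Lie algebra of the operators which respect all these subspaces of the tensor powers. -/
noncomputable def aa : LieSubalgebra K (End K (V 0)) where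
  carrier := {x | ∀ n W, FS ρ n W → ∀ w ∈ W, D e n x w ∈ W}
  add_mem' := by
    intro x y hx hy n W hW w hw
    rw [map_add, LinearMap.add_apply]
    exact W.add_mem (hx n W hW w hw) (hy n W hW w hw)
  zero_mem' := by
    intro n W hW w hw
    rw [map_zero, LinearMap.zero_apply]
    exact W.zero_mem
  smul_mem' := by
    intro c x hx n W hW w hw
    rw [map_smul, LinearMap.smul_apply]
    exact W.smul_mem c (hx n W hW w hw)
  lie_mem' := by
    intro x y hx hy n W hW w hw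
    change D e n (x * y - y * x) w ∈ W
    rw [D_lie, LinearMap.sub_apply, Module.End.mul_apply, Module.End.mul_apply]
    exact W.sub_mem (hx n W hW _ (hy n W hW w hw)) (hy n W hW _ (hx n W hW w hw))

theorem mem_aa {x : End K (V 0)} :
    x ∈ aa e ρ ↔ ∀ n W, FS ρ n W → ∀ w ∈ W, D e n x w ∈ W := Iff.rfl

theorem aa_jclosed : JClosed (aa e ρ) := by
  intro x hx n hn s hs hnil hss hxx m W hW w hw
  have hc : Commute n s := by
    refine Algebra.commute_of_mem_adjoin_singleton_of_commute hs ?_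
    exact (Algebra.commute_of_mem_adjoin_self hn).symm
  have h1 := D_nil_part e hxx hnil hss hc m
  have h2 : ∀ y ∈ Algebra.adjoin K {D e m x}, ∀ w ∈ W, y w ∈ W := by
    intro y hy
    induction hy using Algebra.adjoin_induction with
    | mem y hy =>
      rw [Set.mem_singleton_iff] at hy
      rw [hy]
      exact hx m W hW
    | algebraMap r => exact fun w hw => W.smul_mem r hw
    | add a b _ _ h1 h2 => exact fun w hw => W.add_mem (h1 w hw) (h2 w hw)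
    | mul a b _ _ h1 h2 => exact fun w hw => h1 _ (h2 w hw)
  exact h2 _ h1 w hw

variable {e ρ}

theorem rho_hi {n : ℕ} (g : G) (v : V n) : ρ n g (ρ n g⁻¹ v) = v := by
  rw [← Module.End.mul_apply, ← map_mul, mul_inv_cancel, map_one, Module.End.one_apply]

theorem rho_ih {n : ℕ} (g : G) (v : V n) : ρ n g⁻¹ (ρ n g v) = v := by
  rw [← Module.End.mul_apply, ← map_mul, inv_mul_cancel, map_one, Module.End.one_apply]

theorem FS_map {n : ℕ} {W : Submodule K (V n)} (hW : FS ρ n W) (g : G) :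
    FS ρ n (W.map (ρ n g)) := by
  obtain ⟨U, hN, hF, hU⟩ := hW
  refine ⟨U, hN, hF, ?_⟩
  rintro u hu _ ⟨w, hw, rfl⟩
  refine ⟨ρ n (g⁻¹ * u * g) w, hU _ ?_ w hw, ?_⟩
  · have := hN.conj_mem u hu g⁻¹
    rwa [inv_inv] at this
  · rw [map_mul, map_mul, Module.End.mul_apply, Module.End.mul_apply, rho_hi]

theorem aa_conj (h : Equi e ρ) (g : G) {x : End K (V 0)} (hx : x ∈ aa e ρ) :
    ρ 0 g * x * ρ 0 g⁻¹ ∈ aa e ρ := by
  intro n W hW w hw
  rw [D_conj h, Module.End.mul_apply, Module.End.mul_apply]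
  have h1 := hx n _ (FS_map hW g⁻¹) (ρ n g⁻¹ w) ⟨w, hw, rfl⟩
  obtain ⟨w', hw', h2⟩ := h1
  rw [← h2, rho_hi]
  exact hw'

theorem conj_conj (g : G) (x : End K (V 0)) :
    ρ 0 g⁻¹ * (ρ 0 g * x * ρ 0 g⁻¹) * ρ 0 g⁻¹⁻¹ = x := by
  have h1 : ρ 0 g⁻¹ * ρ 0 g = 1 := by rw [← map_mul, inv_mul_cancel, map_one]
  rw [inv_inv, mul_assoc (ρ 0 g) x, ← mul_assoc (ρ 0 g⁻¹), h1, one_mul, mul_assoc, h1, mul_one]

/-- conjugation by `g` as an automorphism of the Lie algebra -/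
noncomputable def conjE (h : Equi e ρ) (g : G) : aa e ρ ≃ₗ⁅K⁆ aa e ρ where
  toFun x := ⟨ρ 0 g * x * ρ 0 g⁻¹, aa_conj h g x.2⟩
  map_add' x y := Subtype.ext (by
    change ρ 0 g * ((x : End K (V 0)) + y) * ρ 0 g⁻¹ = _
    rw [mul_add, add_mul]
    rfl)
  map_smul' c x := Subtype.ext (by
    change ρ 0 g * (c • (x : End K (V 0))) * ρ 0 g⁻¹ = _
    rw [mul_smul_comm, smul_mul_assoc]
    rfl)
  map_lie' {x y} := Subtype.ext (by
    have h1 : ρ 0 g⁻¹ * ρ 0 g = 1 := by rw [← map_mul, inv_mul_cancel, map_one]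
    have h2 : ∀ a b : End K (V 0), (ρ 0 g * a * ρ 0 g⁻¹) * (ρ 0 g * b * ρ 0 g⁻¹) =
        ρ 0 g * (a * b) * ρ 0 g⁻¹ := by
      intro a b
      calc _ = ρ 0 g * a * (ρ 0 g⁻¹ * ρ 0 g) * b * ρ 0 g⁻¹ := by simp only [mul_assoc]
        _ = _ := by rw [h1, mul_one, mul_assoc (ρ 0 g) a b]
    change ρ 0 g * ((x : End K (V 0)) * y - y * x) * ρ 0 g⁻¹ =
      (ρ 0 g * x * ρ 0 g⁻¹) * (ρ 0 g * y * ρ 0 g⁻¹) - (ρ 0 g * y * ρ 0 g⁻¹) * (ρ 0 g * x * ρ 0 g⁻¹)
    rw [h2, h2, mul_sub, sub_mul])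
  invFun x := ⟨ρ 0 g⁻¹ * x * ρ 0 g⁻¹⁻¹, aa_conj h g⁻¹ x.2⟩
  left_inv x := Subtype.ext (conj_conj g (x : End K (V 0)))
  right_inv x := Subtype.ext (by
    have := conj_conj (ρ := ρ) g⁻¹ (x : End K (V 0))
    simp only [inv_inv] at this ⊢
    exact this)

theorem conjE_apply (h : Equi e ρ) (g : G) (x : aa e ρ) :
    ((conjE h g x : aa e ρ) : End K (V 0)) = ρ 0 g * x * ρ 0 g⁻¹ := rfl

theorem nil_conj (g : G) {x : End K (V 0)} (hx : IsNilpotent x) :
    IsNilpotent (ρ 0 g * x * ρ 0 g⁻¹) := by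
  have h1 : ρ 0 g⁻¹ * ρ 0 g = 1 := by rw [← map_mul, inv_mul_cancel, map_one]
  have h2 : ∀ k : ℕ, (ρ 0 g * x * ρ 0 g⁻¹) ^ (k + 1) = ρ 0 g * x ^ (k + 1) * ρ 0 g⁻¹ := by
    intro k
    induction k with
    | zero => rw [zero_add, pow_one, pow_one]
    | succ k ih =>
      rw [pow_succ, ih, pow_succ x (k + 1)]
      calc _ = ρ 0 g * x ^ (k + 1) * (ρ 0 g⁻¹ * ρ 0 g) * x * ρ 0 g⁻¹ := by simp only [mul_assoc]
        _ = _ := by rw [h1, mul_one, mul_assoc (ρ 0 g) _ x]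
  obtain ⟨k, hk⟩ := hx
  refine ⟨k + 1, ?_⟩
  rw [h2, pow_succ, hk, zero_mul, mul_zero, zero_mul]

/-- The stable Lie algebras of nilpotent operators which respect all the stable subspaces of the
tensor powers. -/
structure IsNil (e : ∀ n, V 0 ⊗[K] V n ≃ₗ[K] V (n + 1)) (ρ : ∀ n, Representation K G (V n))
    (J : Submodule K (End K (V 0))) : Prop where
  ne_bot : J ≠ ⊥
  nil : ∀ x ∈ J, IsNilpotent x
  lie : ∀ x ∈ J, ∀ y ∈ J, x * y - y * x ∈ J
  conj : ∀ g, ∀ x ∈ J, ρ 0 g * x * ρ 0 g⁻¹ ∈ J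
  stab : ∀ x ∈ J, ∀ n (W : Submodule K (V n)), (∀ g, ∀ w ∈ W, ρ n g w ∈ W) →
    ∀ w ∈ W, D e n x w ∈ W

/-- Either such a Lie algebra exists, or the stable subspaces have complements. -/
theorem exists_isNil (h : Equi e ρ) (H : ¬ NoNil (aa e ρ)) : ∃ J, IsNil e ρ J := by
  unfold NoNil at H
  push Not at H
  obtain ⟨I, hI, hnil, hne⟩ := H
  refine ⟨I.toSubmodule.map (aa e ρ).toSubmodule.subtype, ?_, ?_, ?_, ?_, ?_⟩
  · intro h0
    apply hne
    rw [LieSubmodule.eq_bot_iff]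
    intro x hx
    have h1 : (x : End K (V 0)) ∈ I.toSubmodule.map (aa e ρ).toSubmodule.subtype := ⟨x, hx, rfl⟩
    rw [h0, Submodule.mem_bot] at h1
    exact Subtype.ext h1
  · rintro _ ⟨x, hx, rfl⟩
    exact hnil x hx
  · rintro _ ⟨x, hx, rfl⟩ _ ⟨y, hy, rfl⟩
    let x' : aa e ρ := x
    let y' : aa e ρ := y
    have h1 : ⁅x', y'⁆ ∈ I := I.lie_mem hy
    exact ⟨⁅x', y'⁆, h1, rfl⟩
  · rintro g _ ⟨x, hx, rfl⟩
    exact ⟨conjE h g x, hI (conjE h g) (fun y hy => nil_conj g hy) x hx, rfl⟩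
  · rintro _ ⟨x, hx, rfl⟩ n W hW w hw
    exact x.2 n W ⟨⊤, inferInstance, inferInstance, fun u _ => hW u⟩ w hw

end Pool.Agent.N536.SL
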