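import Pool.Agent.N536.SL.LieC

/-!
# Complete reducibility of modules
-/

set_option autoImplicit false
set_option linter.unusedSectionVars false

namespace Pool.Agent.N536.SL

open Module LieAlgebra

attribute [local instance 100] LieRing.ofAssociativeRing

variable {K L M : Type*} [Field K] [CharZero K] [LieRing L] [LieAlgebra K L]
  [FiniteDimensional K L] [AddCommGroup M] [Module K M] [FiniteDimensional K M]
  (π : L →ₗ⁅K⁆ End K M)

/-- the endomorphisms which commute with the center -/
def CZ : Submodule K (End K M) where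
  carrier := {f | ∀ z ∈ center K L, π z * f = f * π z}
  add_mem' := by
    intro f g hf hg z hz
    rw [mul_add, add_mul, hf z hz, hg z hz]
  zero_mem' := by
    intro z _
    rw [mul_zero, zero_mul]
  smul_mem' := by
    intro c f hf z hz
    rw [mul_smul_comm, smul_mul_assoc, hf z hz]

theorem pi_center {z : L} (hz : z ∈ center K L) (x : L) : π z * π x = π x * π z := by
  have h1 : ⁅x, z⁆ = 0 := (LieModule.mem_maxTrivSubmodule K L L z).1 hz x
  have h2 := congrArg π h1
  rw [LieHom.map_lie, map_zero] at h2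
  have h3 : π x * π z - π z * π x = 0 := h2
  exact (sub_eq_zero.1 h3).symm

theorem lie_mem_CZ {f : End K M} (hf : f ∈ CZ π) (x : L) : π x * f - f * π x ∈ CZ π := by
  intro z hz
  have h1 := pi_center π hz x
  have h2 := hf z hz
  rw [mul_sub, sub_mul, ← mul_assoc, ← mul_assoc, h1, h2, mul_assoc, h2, mul_assoc f _ (π z),
    ← h1]
  simp only [mul_assoc]

/-- the action by commutators -/
def act : L →ₗ⁅K⁆ End K (CZ π) where
  toFun x :=
    { toFun := fun f => ⟨π x * f - f * π x, lie_mem_CZ π f.2 x⟩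
      map_add' := fun f g => Subtype.ext (by
        change π x * ((f : End K M) + g) - ((f : End K M) + g) * π x = _
        rw [mul_add, add_mul, add_sub_add_comm]
        rfl)
      map_smul' := fun c f => Subtype.ext (by
        change π x * (c • (f : End K M)) - (c • (f : End K M)) * π x = _
        rw [mul_smul_comm, smul_mul_assoc, ← smul_sub]
        rfl) }
  map_add' x y := by
    ext f : 1
    apply Subtype.ext
    change π (x + y) * (f : End K M) - f * π (x + y) =
      (π x * (f : End K M) - f * π x) + (π y * (f : End K M) - f * π y)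
    rw [map_add, add_mul, mul_add, add_sub_add_comm]
  map_smul' c x := by
    ext f : 1
    apply Subtype.ext
    change π (c • x) * (f : End K M) - f * π (c • x) = c • (π x * (f : End K M) - f * π x)
    rw [map_smul, smul_mul_assoc, mul_smul_comm, ← smul_sub]
  map_lie' {x y} := by
    ext f : 1
    apply Subtype.ext
    have h1 : π ⁅x, y⁆ = π x * π y - π y * π x := π.map_lie x y
    change π ⁅x, y⁆ * (f : End K M) - f * π ⁅x, y⁆ =
      (π x * (π y * (f : End K M) - f * π y) - (π y * (f : End K M) - f * π y) * π x) -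
      (π y * (π x * (f : End K M) - f * π x) - (π x * (f : End K M) - f * π x) * π y)
    rw [h1]
    simp only [mul_sub, sub_mul, mul_assoc]
    abel

/-- **Complete reducibility.** -/
theorem compl_of_hom (hrc : radical K L = center K L) (hcs : ∀ z ∈ center K L, (π z).IsSemisimple)
    (W : Submodule K M) (hW : ∀ x, ∀ w ∈ W, π x w ∈ W) :
    ∃ W' : Submodule K M, (∀ x, ∀ w ∈ W', π x w ∈ W') ∧ IsCompl W W' := by
  by_cases hbot : W = ⊥
  · exact ⟨⊤, fun _ _ _ => trivial, by rw [hbot]; exact isCompl_bot_top⟩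
  have hQ : HasTrivialRadical K (L ⧸ radical K L) := radical_quot
  -- the projection which commutes with the center
  obtain ⟨f₀, hf1, hf2, hf3⟩ := exists_proj_comm (S := {a : End K M | ∃ z ∈ center K L, a = π z})
    (by
      rintro _ ⟨a, ha, rfl⟩ _ ⟨b, hb, rfl⟩
      exact pi_center π ha b) (by
      rintro _ ⟨a, ha, rfl⟩
      exact hcs a ha) W (by
      rintro _ ⟨a, ha, rfl⟩
      exact hW a)
  -- the module over the quotient
  have hact : ∀ x ∈ radical K L, act π x = 0 := by
    intro x hx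
    rw [hrc] at hx
    ext m : 1
    apply Subtype.ext
    change π x * (m : End K M) - m * π x = 0
    rw [m.2 x hx, sub_self]
  let q := qlift (radical K L) (act π) hact
  let _ : LieRingModule (L ⧸ radical K L) (CZ π) := LieRingModule.compLieHom (CZ π) q
  have _ : LieModule K (L ⧸ radical K L) (CZ π) := LieModule.compLieHom (CZ π) q
  have hbr : ∀ (x : L) (m : CZ π), ((⁅Pool.Agent.N817.PL.Split.quo (radical K L) x, m⁆ : CZ π) :
      End K M) = π x * m - m * π x := fun x m => rfl
  let P : LieSubmodule K (L ⧸ radical K L) (CZ π) :=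
    { carrier := {f | (∀ v, (f : End K M) v ∈ W) ∧ ∃ c : K, ∀ w ∈ W, (f : End K M) w = c • w}
      zero_mem' := ⟨fun m => W.zero_mem, 0, fun n _ => by rw [zero_smul]; rfl⟩
      add_mem' := by
        rintro f g ⟨h1, c, h2⟩ ⟨h3, d, h4⟩
        exact ⟨fun m => W.add_mem (h1 m) (h3 m), c + d, fun n hn => by
          rw [add_smul, ← h2 n hn, ← h4 n hn]; rfl⟩
      smul_mem' := by
        rintro r f ⟨h1, c, h2⟩
        exact ⟨fun m => W.smul_mem r (h1 m), r * c, fun n hn => by
          rw [mul_smul, ← h2 n hn]; rfl⟩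
      lie_mem := by
        rintro x f ⟨h1, c, h2⟩
        obtain ⟨x, rfl⟩ := Pool.Agent.N817.PL.Split.quo_surj (radical K L) x
        refine ⟨fun m => ?_, 0, fun n hn => ?_⟩
        · rw [hbr]
          exact W.sub_mem (hW x _ (h1 m)) (h1 _)
        · rw [hbr, LinearMap.sub_apply, Module.End.mul_apply, Module.End.mul_apply, h2 n hn,
            h2 _ (hW x n hn), map_smul, sub_self, zero_smul] }
  let N' : LieSubmodule K (L ⧸ radical K L) (CZ π) :=
    { carrier := {f | (∀ v, (f : End K M) v ∈ W) ∧ ∀ w ∈ W, (f : End K M) w = 0}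
      zero_mem' := ⟨fun m => W.zero_mem, fun n _ => rfl⟩
      add_mem' := by
        rintro f g ⟨h1, h2⟩ ⟨h3, h4⟩
        refine ⟨fun m => W.add_mem (h1 m) (h3 m), fun n hn => ?_⟩
        change (f : End K M) n + (g : End K M) n = 0
        rw [h2 n hn, h4 n hn, add_zero]
      smul_mem' := by
        rintro r f ⟨h1, h2⟩
        refine ⟨fun m => W.smul_mem r (h1 m), fun n hn => ?_⟩
        change r • (f : End K M) n = 0
        rw [h2 n hn, smul_zero]
      lie_mem := by
        rintro x f ⟨h1, h2⟩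
        obtain ⟨x, rfl⟩ := Pool.Agent.N817.PL.Split.quo_surj (radical K L) x
        refine ⟨fun m => ?_, fun n hn => ?_⟩
        · rw [hbr]
          exact W.sub_mem (hW x _ (h1 m)) (h1 _)
        · rw [hbr, LinearMap.sub_apply, Module.End.mul_apply, Module.End.mul_apply, h2 n hn,
            h2 _ (hW x n hn), map_zero, sub_self] }
  have hP : ∀ f, f ∈ P ↔ (∀ v, (f : End K M) v ∈ W) ∧ ∃ c : K, ∀ w ∈ W, (f : End K M) w = c • w :=
    fun f => Iff.rfl
  have hN' : ∀ f, f ∈ N' ↔ (∀ v, (f : End K M) v ∈ W) ∧ ∀ w ∈ W, (f : End K M) w = 0 :=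
    fun f => Iff.rfl
  have hf₀ : f₀ ∈ CZ π := fun z hz => hf3 _ ⟨z, hz, rfl⟩
  have hlt : N' < P := by
    refine lt_of_le_of_ne (fun f hf => (hP f).2 ⟨((hN' f).1 hf).1, 0, fun n hn => by
      rw [((hN' f).1 hf).2 n hn, zero_smul]⟩) fun heq => ?_
    have h1 : (⟨f₀, hf₀⟩ : CZ π) ∈ P :=
      (hP _).2 ⟨hf1, 1, fun n hn => by rw [one_smul]; exact hf2 n hn⟩
    rw [← heq] at h1
    refine hbot ((Submodule.eq_bot_iff _).2 fun n hn => ?_)
    rw [← hf2 n hn]
    exact ((hN' _).1 h1).2 n hn
  have hPN : ∀ (x : L ⧸ radical K L), ∀ f ∈ P, ⁅x, f⁆ ∈ N' := by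
    intro x f hf
    obtain ⟨x, rfl⟩ := Pool.Agent.N817.PL.Split.quo_surj (radical K L) x
    obtain ⟨h1, c, h2⟩ := (hP f).1 hf
    refine (hN' _).2 ⟨fun m => ?_, fun n hn => ?_⟩
    · rw [hbr]
      exact W.sub_mem (hW x _ (h1 m)) (h1 _)
    · rw [hbr, LinearMap.sub_apply, Module.End.mul_apply, Module.End.mul_apply, h2 n hn,
        h2 _ (hW x n hn), map_smul, sub_self]
  obtain ⟨f, hf, hfN, hfx⟩ := Pool.Agent.R918.Weyl.descent (M := CZ π) N' P hlt hPN
  obtain ⟨h1, c, h2⟩ := (hP f).1 hf
  have hc : c ≠ 0 := by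
    rintro rfl
    exact hfN ((hN' f).2 ⟨h1, fun n hn => by rw [h2 n hn, zero_smul]⟩)
  have hcomm : ∀ x v, (f : End K M) (π x v) = π x ((f : End K M) v) := by
    intro x v
    have h3 := congrArg Subtype.val (hfx (Pool.Agent.N817.PL.Split.quo (radical K L) x))
    rw [hbr] at h3
    have h4 := LinearMap.congr_fun h3 v
    rw [LinearMap.sub_apply, Module.End.mul_apply, Module.End.mul_apply] at h4
    exact (sub_eq_zero.1 h4).symm
  refine ⟨LinearMap.ker (f : End K M), fun x w hw => ?_, ?_⟩
  · rw [LinearMap.mem_ker] at hw ⊢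
    rw [hcomm x, hw, map_zero]
  · rw [isCompl_iff, disjoint_iff, codisjoint_iff]
    constructor
    · rw [Submodule.eq_bot_iff]
      rintro x ⟨hx, hx'⟩
      rw [SetLike.mem_coe, LinearMap.mem_ker, h2 x hx] at hx'
      exact (smul_eq_zero.1 hx').resolve_left hc
    · rw [eq_top_iff]
      intro v _
      have h3 : v = c⁻¹ • (f : End K M) v + (v - c⁻¹ • (f : End K M) v) := by abel
      rw [h3]
      refine Submodule.add_mem_sup (W.smul_mem _ (h1 v)) ?_
      rw [LinearMap.mem_ker, map_sub, map_smul, h2 _ (h1 v), smul_smul, inv_mul_cancel₀ hc,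
        one_smul, sub_self]

end Pool.Agent.N536.SL
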