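import Pool.Agent.N536.SL.AA

/-!
# Semisimple subquotients of the tensor powers
-/

set_option autoImplicit false
set_option linter.unusedSectionVars false

open Module TensorProduct

namespace Pool.Agent.N536.SL

attribute [local instance 100] LieRing.ofAssociativeRing

/-- The stable subspaces. -/
def St {K G W : Type*} [Field K] [Group G] [AddCommGroup W] [Module K W]
    (r : Representation K G W) (C : Submodule K W) : Prop := ∀ g, ∀ w ∈ C, r g w ∈ C

/-- The quotient `A / B` of stable subspaces is semisimple. -/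
def SSQ {K G W : Type*} [Field K] [Group G] [AddCommGroup W] [Module K W]
    (r : Representation K G W) (B A : Submodule K W) : Prop :=
  ∀ C, St r C → B ≤ C → C ≤ A → ∃ C', St r C' ∧ C ⊓ C' = B ∧ C ⊔ C' = A

variable {K : Type*} [Field K] [CharZero K] {V : ℕ → Type*} [∀ n, AddCommGroup (V n)]
  [∀ n, Module K (V n)] [∀ n, FiniteDimensional K (V n)]
  {e : ∀ n, V 0 ⊗[K] V n ≃ₗ[K] V (n + 1)} {G : Type*} [Group G]
  {ρ : ∀ n, Representation K G (V n)} {J : Submodule K (End K (V 0))}

/-- the image of the Lie algebra in the endomorphisms of the tensor power -/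
noncomputable def JL (hJ : IsNil e ρ J) (n : ℕ) : LieSubalgebra K (End K (V n)) :=
  { J.map (D e n) with
    lie_mem' := by
      rintro _ _ ⟨x, hx, rfl⟩ ⟨y, hy, rfl⟩
      exact ⟨x * y - y * x, hJ.lie x hx y hy, D_lie e x y n⟩ }

theorem mem_JL (hJ : IsNil e ρ J) (n : ℕ) {y : End K (V n)} :
    y ∈ JL hJ n ↔ ∃ x ∈ J, D e n x = y := Iff.rfl

theorem JL_nilpotent (hJ : IsNil e ρ J) (n : ℕ) : LieModule.IsNilpotent (JL hJ n) (V n) := by
  rw [LieModule.isNilpotent_iff_forall (R := K)]
  rintro ⟨_, x, hx, rfl⟩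
  exact D_nilpotent e (hJ.nil x hx) n

/-- The Lie algebra of nilpotent operators acts trivially on the semisimple subquotients. -/
theorem kill (h : Equi e ρ) (hJ : IsNil e ρ J) {n : ℕ} {A B : Submodule K (V n)}
    (hA : St (ρ n) A) (hB : St (ρ n) B) (hBA : B ≤ A) (hss : SSQ (ρ n) B A) :
    ∀ x ∈ J, ∀ a ∈ A, D e n x a ∈ B := by
  let JA : Submodule K (V n) → Submodule K (V n) := fun A =>
    Submodule.span K {v | ∃ x ∈ J, ∃ a ∈ A, v = D e n x a}
  have hJA : ∀ {x a} {A : Submodule K (V n)}, x ∈ J → a ∈ A → D e n x a ∈ JA A :=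
    fun hx ha => Submodule.subset_span ⟨_, hx, _, ha, rfl⟩
  let C : Submodule K (V n) := B ⊔ JA A
  have hC : St (ρ n) C := by
    intro g w hw
    obtain ⟨b, hb, c, hc, rfl⟩ := Submodule.mem_sup.1 hw
    rw [map_add]
    refine Submodule.add_mem_sup (hB g b hb) ?_
    clear hw
    induction hc using Submodule.span_induction with
    | mem c hc =>
      obtain ⟨x, hx, a, ha, rfl⟩ := hc
      have h1 : ρ n g (D e n x a) = D e n (ρ 0 g * x * ρ 0 g⁻¹) (ρ n g a) := by
        rw [D_conj h, Module.End.mul_apply, Module.End.mul_apply, rho_ih]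
      rw [h1]
      exact hJA (hJ.conj g x hx) (hA g a ha)
    | zero => rw [map_zero]; exact Submodule.zero_mem _
    | add a b _ _ ha hb =>
      rw [map_add]
      exact Submodule.add_mem _ ha hb
    | smul c a _ ha =>
      rw [map_smul]
      exact Submodule.smul_mem _ _ ha
  have hCA : C ≤ A := by
    refine sup_le hBA (Submodule.span_le.2 ?_)
    rintro _ ⟨x, hx, a, ha, rfl⟩
    exact hJ.stab x hx n A hA a ha
  obtain ⟨C', hC', hinf, hsup⟩ := hss C hC le_sup_left hCA
  have h1 : JA A ≤ B ⊔ JA C := by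
    refine Submodule.span_le.2 ?_
    rintro _ ⟨x, hx, a, ha, rfl⟩
    rw [← hsup] at ha
    obtain ⟨c, hc, c', hc', rfl⟩ := Submodule.mem_sup.1 ha
    rw [map_add, add_comm]
    refine Submodule.add_mem_sup ?_ (hJA hx hc)
    rw [← hinf]
    refine ⟨?_, hJ.stab x hx n C' hC' c' hc'⟩
    have h2 : D e n x c' = D e n x (c + c') - D e n x c := by rw [map_add, add_sub_cancel_left]
    rw [h2]
    refine C.sub_mem ?_ (hJ.stab x hx n C hC c hc)
    exact Submodule.mem_sup_right (hJA hx (hsup ▸ Submodule.add_mem_sup hc hc'))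
  have hCC : C ≤ B ⊔ JA C := sup_le le_sup_left h1
  -- the lower central series
  have key : ∀ k, C ≤ B ⊔ (LieModule.lowerCentralSeries K (JL hJ n) (V n) k).toSubmodule := by
    intro k
    induction k with
    | zero =>
      rw [LieModule.lowerCentralSeries_zero]
      exact fun x _ => Submodule.mem_sup_right (LieSubmodule.mem_top x)
    | succ k ih =>
      refine hCC.trans (sup_le le_sup_left (Submodule.span_le.2 ?_))
      rintro _ ⟨x, hx, c, hc, rfl⟩
      obtain ⟨b, hb, l, hl, rfl⟩ := Submodule.mem_sup.1 (ih hc)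
      rw [map_add]
      refine Submodule.add_mem_sup (hJ.stab x hx n B hB b hb) ?_
      rw [LieModule.lowerCentralSeries_succ]
      have h3 : ⁅(⟨D e n x, x, hx, rfl⟩ : JL hJ n), l⁆ ∈
          ⁅(⊤ : LieIdeal K (JL hJ n)), LieModule.lowerCentralSeries K (JL hJ n) (V n) k⁆ :=
        LieSubmodule.lie_mem_lie (LieSubmodule.mem_top _) hl
      exact h3
  obtain ⟨k, hk⟩ := (LieModule.isNilpotent_iff K (JL hJ n) (V n)).1 (JL_nilpotent hJ n)
  have h2 : C ≤ B := by
    have := key k
    rw [hk] at this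
    simpa using this
  intro x hx a ha
  exact h2 (Submodule.mem_sup_right (hJA hx ha))

/-- The dimension of a semisimple subquotient. -/
theorem dim_le {W : Type*} [AddCommGroup W] [Module K W] [FiniteDimensional K W] (N : End K W)
    {A B : Submodule K W} (h : ∀ a ∈ A, N a ∈ B) :
    finrank K A ≤ finrank K B + finrank K (LinearMap.ker N) := by
  let f : A →ₗ[K] B := N.restrict h
  have h1 := LinearMap.finrank_range_add_finrank_ker f
  have h2 : finrank K (LinearMap.range f) ≤ finrank K B := Submodule.finrank_le _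
  have h3 : finrank K (LinearMap.ker f) ≤ finrank K (LinearMap.ker N) := by
    let g : LinearMap.ker f →ₗ[K] LinearMap.ker N :=
      { toFun := fun x => ⟨(x : A), by
          have := x.2
          rw [LinearMap.mem_ker] at this ⊢
          exact congrArg Subtype.val this⟩
        map_add' := fun _ _ => rfl
        map_smul' := fun _ _ => rfl }
    refine LinearMap.finrank_le_finrank_of_injective (f := g) ?_
    intro x y hxy
    have := congrArg Subtype.val hxy
    exact Subtype.ext (Subtype.ext this)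
  omega

/-- A chain of stable subspaces with semisimple quotients. -/
theorem chain_pow (h : Equi e ρ) (hJ : IsNil e ρ J) {n m : ℕ} (W : ℕ → Submodule K (V n))
    (hW0 : W 0 = ⊥) (hWm : W m = ⊤) (hmono : ∀ i < m, W i ≤ W (i + 1))
    (hst : ∀ i ≤ m, St (ρ n) (W i)) (hss : ∀ i < m, SSQ (ρ n) (W i) (W (i + 1))) {x : End K (V 0)}
    (hx : x ∈ J) : (D e n x) ^ m = 0 := by
  have key : ∀ k ≤ m, ∀ v, ((D e n x) ^ k) v ∈ W (m - k) := by
    intro k
    induction k with
    | zero =>
      intro _ v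
      rw [Nat.sub_zero, hWm]
      trivial
    | succ k ih =>
      intro hk v
      rw [pow_succ', Module.End.mul_apply]
      have h1 := ih (by omega) v
      have h2 : m - k = (m - (k + 1)) + 1 := by omega
      rw [h2] at h1
      exact kill h hJ (hst _ (by omega)) (hst _ (by omega)) (hmono _ (by omega))
        (hss _ (by omega)) x hx _ h1
  ext v
  have := key m le_rfl v
  rw [Nat.sub_self, hW0, Submodule.mem_bot] at this
  rw [this, LinearMap.zero_apply]

/-! ### Nilpotency -/

theorem tmul_ne {A B : Type*} [AddCommGroup A] [Module K A] [AddCommGroup B] [Module K B]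
    {a : A} {b : B} (ha : a ≠ 0) (hb : b ≠ 0) : a ⊗ₜ[K] b ≠ 0 := by
  obtain ⟨φ, hφ⟩ : ∃ φ : A →ₗ[K] K, φ a = 1 := Module.Projective.exists_dual_eq_one K ha
  obtain ⟨ψ, hψ⟩ : ∃ ψ : B →ₗ[K] K, ψ b = 1 := Module.Projective.exists_dual_eq_one K hb
  intro h0
  have h1 := congrArg ((TensorProduct.lid K K).toLinearMap ∘ₗ TensorProduct.map φ ψ) h0
  simp [hφ, hψ] at h1

theorem RL_ne_zero (n : ℕ) {x : End K (V 0)} {y : End K (V n)} (hx : x ≠ 0) (hy : y ≠ 0) :
    Rh e n x * Lh e n y ≠ 0 := by
  obtain ⟨a, ha⟩ : ∃ a, x a ≠ 0 := by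
    by_contra hcon
    push Not at hcon
    exact hx (LinearMap.ext hcon)
  obtain ⟨b, hb⟩ : ∃ b, y b ≠ 0 := by
    by_contra hcon
    push Not at hcon
    exact hy (LinearMap.ext hcon)
  intro h0
  have h1 := LinearMap.congr_fun h0 (e n (a ⊗ₜ b))
  rw [Module.End.mul_apply, Lh_apply, Rh_apply, LinearMap.zero_apply] at h1
  have h2 : x a ⊗ₜ[K] y b = 0 := (e n).injective (by rw [h1, map_zero])
  exact tmul_ne ha hb h2

theorem D_pow {x : End K (V 0)} {k : ℕ} (hk : x ^ k ≠ 0) (hk1 : x ^ (k + 1) = 0) (n : ℕ) :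
    (D e n x) ^ ((n + 1) * k) ≠ 0 ∧ (D e n x) ^ ((n + 1) * k + 1) = 0 := by
  induction n with
  | zero =>
    rw [D_zero, zero_add, one_mul]
    exact ⟨hk, hk1⟩
  | succ n ih =>
    obtain ⟨ih1, ih2⟩ := ih
    have hR : ∀ i, k < i → (Rh e n x) ^ i = 0 := by
      intro i hi
      obtain ⟨j, rfl⟩ : ∃ j, i = (k + 1) + j := ⟨i - (k + 1), by omega⟩
      rw [← map_pow, pow_add, hk1, zero_mul, map_zero]
    have hL : ∀ i, (n + 1) * k < i → (Lh e n (D e n x)) ^ i = 0 := by
      intro i hi
      obtain ⟨j, rfl⟩ : ∃ j, i = ((n + 1) * k + 1) + j := ⟨i - ((n + 1) * k + 1), by omega⟩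
      rw [← map_pow, pow_add, ih2, zero_mul, map_zero]
    have hM : (n + 1 + 1) * k = k + (n + 1) * k := by ring
    rw [D_succ, hM]
    constructor
    · rw [(comm_RL e n x (D e n x)).add_pow, Finset.sum_eq_single k]
      · rw [Nat.add_sub_cancel_left, ← map_pow, ← map_pow]
        intro h0
        have h1 : ((k + (n + 1) * k).choose k : End K (V (n + 1))) =
            algebraMap K _ ((k + (n + 1) * k).choose k : K) := by simp
        rw [h1, ← Algebra.commutes, ← Algebra.smul_def] at h0
        rcases smul_eq_zero.1 h0 with h2 | h2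
        · have h3 : (k + (n + 1) * k).choose k ≠ 0 := (Nat.choose_pos (by omega)).ne'
          exact h3 (by exact_mod_cast h2)
        · exact RL_ne_zero n hk ih1 h2
      · intro i _ hi
        rcases lt_or_gt_of_ne hi with h1 | h1
        · rw [hL (k + (n + 1) * k - i) (by omega), mul_zero, zero_mul]
        · rw [hR i h1, zero_mul, zero_mul]
      · intro h1
        exact absurd (Finset.mem_range.2 (by omega)) h1
    · rw [(comm_RL e n x (D e n x)).add_pow]
      refine Finset.sum_eq_zero fun i _ => ?_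
      rcases lt_or_ge k i with h1 | h1
      · rw [hR i h1, zero_mul, zero_mul]
      · rw [hL (k + (n + 1) * k + 1 - i) (by omega), mul_zero, zero_mul]

theorem D_pow_ne_zero {x : End K (V 0)} (hx0 : x ≠ 0) (hx : IsNilpotent x) (n : ℕ) :
    (D e n x) ^ (n + 1) ≠ 0 := by
  classical
  have hex : ∃ m, x ^ m = 0 := hx
  have h1 := Nat.find_spec hex
  have h2 : ∀ i, i < Nat.find hex → x ^ i ≠ 0 := fun i hi => Nat.find_min hex hi
  set m := Nat.find hex
  clear_value m
  have hm : 2 ≤ m := by
    by_contra hcon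
    have h3 : m = 0 ∨ m = 1 := by omega
    rcases h3 with h3 | h3
    · rw [h3, pow_zero] at h1
      exact hx0 (by rw [← mul_one x, h1, mul_zero])
    · rw [h3, pow_one] at h1
      exact hx0 h1
  obtain ⟨k, rfl⟩ : ∃ k, m = k + 1 := ⟨m - 1, by omega⟩
  have h3 := (D_pow (e := e) (h2 k (by omega)) h1 n).1
  intro h0
  apply h3
  obtain ⟨j, hj⟩ : ∃ j, (n + 1) * k = (n + 1) + j := by
    have : n + 1 ≤ (n + 1) * k := Nat.le_mul_of_pos_right _ (by omega)
    exact ⟨(n + 1) * k - (n + 1), by omega⟩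
  rw [hj, pow_add, h0, zero_mul]

end Pool.Agent.N536.SL
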