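import Pool.Agent.N536.SL.Pad
import Pool.Agent.N536.SL.Soc
import Pool.Agent.N536.SL.LieD

/-!
# Tensor powers of semisimple representations
-/

set_option autoImplicit false
set_option linter.unusedSectionVars false

open Module TensorProduct Filter Topology

namespace Pool.Agent.N536.SL

open Pool.Agent.N817.PL Pool.Agent.N817.PL.DD Pool.Agent.N817.PL.Nrm Pool.Agent.Y114.GF

attribute [local instance] nring nalg
attribute [local instance 100] LieRing.ofAssociativeRing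

theorem st_iff {K G W : Type*} [Field K] [Group G] [AddCommGroup W] [Module K W]
    (r : Representation K G W) (C : Submodule K W) : Stab r (⊤ : Subgroup G) C ↔ St r C :=
  ⟨fun h g => h g trivial, fun h g _ => h g⟩

/-- A semisimple representation and its semisimple quotients. -/
theorem ssq_of_semi {K G W : Type*} [Field K] [Group G] [AddCommGroup W] [Module K W]
    {r : Representation K G W} (h : Semi r (⊤ : Subgroup G)) {B A : Submodule K W}
    (hB : St r B) (hA : St r A) (hBA : B ≤ A) : SSQ r B A := by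
  intro C hC hBC hCA
  obtain ⟨D, hD, hc⟩ := h C ((st_iff r C).2 hC)
  refine ⟨B ⊔ (D ⊓ A), ?_, ?_, ?_⟩
  · rw [← st_iff] at hB hA ⊢
    exact hB.sup r (hD.inf r hA)
  · apply le_antisymm
    · rintro x ⟨hx, hx'⟩
      obtain ⟨b, hb, d, ⟨hd, hd'⟩, rfl⟩ := Submodule.mem_sup.1 hx'
      have h1 : d ∈ C := by
        have := C.sub_mem hx (hBC hb)
        rwa [add_sub_cancel_left] at this
      have h2 : d ∈ C ⊓ D := ⟨h1, hd⟩
      rw [hc.inf_eq_bot, Submodule.mem_bot] at h2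
      rw [h2, add_zero]
      exact hb
    · exact le_inf hBC le_sup_left
  · apply le_antisymm
    · exact sup_le hCA (sup_le hBA inf_le_right)
    · intro a ha
      have h1 : a ∈ C ⊔ D := by rw [hc.sup_eq_top]; trivial
      obtain ⟨c, hc', d, hd, rfl⟩ := Submodule.mem_sup.1 h1
      refine Submodule.add_mem_sup hc' (Submodule.mem_sup_right ⟨hd, ?_⟩)
      have := A.sub_mem ha (hCA hc')
      rwa [add_sub_cancel_left] at this

theorem noNil_of_semi {K : Type*} [Field K] [CharZero K] {V : ℕ → Type*}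
    [∀ n, AddCommGroup (V n)] [∀ n, Module K (V n)] [∀ n, FiniteDimensional K (V n)]
    {e : ∀ n, V 0 ⊗[K] V n ≃ₗ[K] V (n + 1)} {G : Type*} [Group G]
    {ρ : ∀ n, Representation K G (V n)} (h : Equi e ρ) (hs : Semi (ρ 0) (⊤ : Subgroup G)) :
    NoNil (aa e ρ) := by
  by_contra H
  obtain ⟨J, hJ⟩ := exists_isNil h H
  apply hJ.ne_bot
  rw [Submodule.eq_bot_iff]
  intro x hx
  have hb : St (ρ 0) (⊥ : Submodule K (V 0)) := by
    intro g w hw
    rw [Submodule.mem_bot] at hw ⊢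
    rw [hw, map_zero]
  have ht : St (ρ 0) (⊤ : Submodule K (V 0)) := fun _ _ _ => trivial
  ext v
  have h1 := kill h hJ ht hb bot_le (ssq_of_semi hs hb ht bot_le) x hx v trivial
  rw [Submodule.mem_bot] at h1
  exact h1

variable {p : ℕ} [hp : Fact p.Prime] {G : Type*} [Group G]
  {V : ℕ → Type*} [∀ n, AddCommGroup (V n)]
  [∀ n, Module ℚ_[p] (V n)] [∀ n, FiniteDimensional ℚ_[p] (V n)]
  {e : ∀ n, V 0 ⊗[ℚ_[p]] V n ≃ₗ[ℚ_[p]] V (n + 1)} {ρ : ∀ n, Representation ℚ_[p] G (V n)}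

theorem wl_log {W : Type*} [AddCommGroup W] [Module ℚ_[p] W] [FiniteDimensional ℚ_[p] W]
    (r : Representation ℚ_[p] G W) {γ : G} {ℓ : Mat (finrank ℚ_[p] W) ℚ_[p]}
    (hℓ : Tendsto (fun k => Log.f p k (EM W (r γ) - 1)) atTop (𝓝 ℓ)) :
    WL (fun k : ℕ => ((p : ℚ_[p]) ^ k)⁻¹ • (r (γ ^ (p ^ k)) - 1)) ((EM W).symm ℓ) := by
  have h2 := wl_of_tendsto hℓ
  have h4 : ∀ k : ℕ, (EM W).symm (Log.f p k (EM W (r γ) - 1)) =
      ((p : ℚ_[p]) ^ k)⁻¹ • (r (γ ^ (p ^ k)) - 1) := by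
    intro k
    unfold Log.f
    rw [add_sub_cancel, map_smul, map_sub, map_pow, map_one, AlgEquiv.symm_apply_apply, ← map_pow,
      inv_pow]
  intro φ v
  refine (h2 φ v).congr fun k => ?_
  beta_reduce
  rw [h4]

theorem wl_unique {W : Type*} [AddCommGroup W] [Module ℚ_[p] W] {a : ℕ → End ℚ_[p] W}
    {x y : End ℚ_[p] W} (hx : WL a x) (hy : WL a y) : x = y := by
  ext v
  rw [← sub_eq_zero]
  by_contra hne
  obtain ⟨φ, hφ⟩ : ∃ φ : W →ₗ[ℚ_[p]] ℚ_[p], φ (x v - y v) = 1 :=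
    Module.Projective.exists_dual_eq_one ℚ_[p] hne
  have h1 := tendsto_nhds_unique (hx φ v) (hy φ v)
  rw [map_sub, h1, sub_self] at hφ
  exact zero_ne_one hφ

/-- The subspaces of the tensor powers which are stable under the Lie algebra are stable under the
elements near to `1`. -/
theorem stab_pow (h : Equi e ρ) {n : ℕ} (W : Submodule ℚ_[p] (V n))
    (hW : ∀ x ∈ aa e ρ, ∀ w ∈ W, D e n x w ∈ W) {γ : G} (h0 : γ ∈ U0 (ρ 0)) (hn : γ ∈ U0 (ρ n)) :
    ∀ w ∈ W, ρ n γ w ∈ W := by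
  have _ := ultraM (p := p) (finrank ℚ_[p] (V 0))
  have _ := completeM (p := p) (finrank ℚ_[p] (V 0))
  have _ := ultraM (p := p) (finrank ℚ_[p] (V n))
  have _ := completeM (p := p) (finrank ℚ_[p] (V n))
  have hx0 : ‖EM (V 0) (ρ 0 γ) - 1‖ ≤ 1 / 4 := le_of_lt h0
  have hxn : ‖EM (V n) (ρ n γ) - 1‖ ≤ 1 / 4 := le_of_lt hn
  have hp1 : (1 : ℝ) < p := by exact_mod_cast hp.out.one_lt
  have hp0 : (p : ℚ_[p]) ≠ 0 := by exact_mod_cast hp.out.ne_zero
  obtain ⟨ℓ, hℓ⟩ := Log.exists_log (p := p) hx0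
  obtain ⟨ℓ', hℓ'⟩ := Log.exists_log (p := p) hxn
  have ht : Tendsto (fun k : ℕ => (p : ℚ_[p]) ^ k) atTop (𝓝 0) := by
    apply tendsto_pow_atTop_nhds_zero_of_norm_lt_one
    rw [Padic.norm_p]
    exact inv_lt_one_of_one_lt₀ hp1
  have h1 := wl_tower h (fun k => pow_ne_zero k hp0) ht (wl_log (ρ 0) hℓ) n
  have h2 := wl_log (ρ n) hℓ'
  have h3 := wl_unique h1 h2
  let S : Subalgebra ℚ_[p] (Mat (finrank ℚ_[p] (V n)) ℚ_[p]) :=
    { carrier := {M | ∀ w ∈ W, (EM (V n)).symm M w ∈ W}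
      mul_mem' := by
        intro a b ha hb w hw
        rw [map_mul]
        exact ha _ (hb w hw)
      add_mem' := by
        intro a b ha hb w hw
        rw [map_add]
        exact W.add_mem (ha w hw) (hb w hw)
      algebraMap_mem' := by
        intro c w hw
        rw [AlgEquiv.commutes]
        exact W.smul_mem c hw }
  have hS : ∀ M, M ∈ S ↔ ∀ w ∈ W, (EM (V n)).symm M w ∈ W := fun M => Iff.rfl
  have hcl : IsClosed (S : Set (Mat (finrank ℚ_[p] (V n)) ℚ_[p])) :=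
    Submodule.closed_of_finiteDimensional (Subalgebra.toSubmodule S)
  have h4 := Log.mem_of_log S hcl hxn hℓ' ((hS ℓ').2 (by
    rw [← h3]
    exact hW _ (log_mem_aa h h0 hℓ)))
  intro w hw
  have h2 := (hS _).1 h4 w hw
  rw [map_sub, AlgEquiv.symm_apply_apply, map_one, LinearMap.sub_apply, Module.End.one_apply] at h2
  have h3 := W.add_mem h2 hw
  rwa [sub_add_cancel] at h3

/-- **The tensor powers of a semisimple representation are semisimple.** -/
theorem semi_pow [TopologicalSpace G] [IsTopologicalGroup G] [CompactSpace G]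
    (h : Equi e ρ) (hr : ∀ n, Cont (ρ n)) (hs : Semi (ρ 0) (⊤ : Subgroup G)) (n : ℕ) :
    Semi (ρ n) (⊤ : Subgroup G) := by
  have H := noNil_of_semi h hs
  have hfi0 := U0_finiteIndex (ρ 0) (hr 0)
  have hfin := U0_finiteIndex (ρ n) (hr n)
  let U : Subgroup G := U0 (ρ 0) ⊓ U0 (ρ n)
  have hU : U.FiniteIndex := inferInstance
  let π : aa e ρ →ₗ⁅ℚ_[p]⁆ End ℚ_[p] (V n) :=
    { (D e n).comp (aa e ρ).toSubmodule.subtype with
      map_lie' := by
        intro x y
        exact D_lie e (x : End ℚ_[p] (V 0)) y n }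
  have hπ : ∀ x, π x = D e n x := fun x => rfl
  have h1 : Semi (ρ n) U := by
    intro W hW
    obtain ⟨W', hW', hc⟩ := compl_of_hom π (radical_eq_center H) (fun z hz => by
      rw [hπ]
      exact D_semisimple e (center_semisimple (aa_jclosed e ρ) H z hz) n) W (by
      intro x w hw
      refine x.2 n W ⟨U.normalCore, inferInstance, inferInstance, ?_⟩ w hw
      intro u hu
      exact hW u (U.normalCore_le hu))
    refine ⟨W', fun g hg => stab_pow h W' (fun x hx => hW' ⟨x, hx⟩) hg.1 hg.2, hc⟩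
  refine semi_of_le (ρ n) le_top ?_ h1
  rw [Subgroup.relIndex_top_right]
  exact hU.index_ne_zero

end Pool.Agent.N536.SL
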