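import Pool.Agent.N536.SL.Soc
import Pool.Agent.N536.FS.Law

/-!
# The dimension of the kernel of the induced operators
-/

set_option autoImplicit false
set_option linter.unusedSectionVars false

open Module TensorProduct

namespace Pool.Agent.N536.SL

open Pool.Agent.Y163.MW Pool.Agent.N536.FS

universe u v

variable {K : Type u} [Field K] [CharZero K] {V : ℕ → Type v} [∀ n, AddCommGroup (V n)]
  [∀ n, Module K (V n)] [∀ n, FiniteDimensional K (V n)]
  (e : ∀ n, V 0 ⊗[K] V n ≃ₗ[K] V (n + 1))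

theorem sl_reindex {W : Type v} [AddCommGroup W] [Module K W] {N : End K W} {I J : Type}
    {a : I → ℤ} {b : Basis I K W} {E H : End K W} (h : IsSl2 N b a E H) (σ : I ≃ J) (a' : J → ℤ)
    (ha : ∀ j, a' j = a (σ.symm j)) : IsSl2 N (b.reindex σ) a' E H := by
  refine ⟨fun j => ?_, h.eN, h.hN, h.he⟩
  rw [Basis.reindex_apply, ha]
  exact h.wt _

theorem sl_tower {x : End K (V 0)} {I : Type} {a : I → ℤ} {b : Basis I K (V 0)}
    {E H : End K (V 0)} (h0 : IsSl2 x b a E H) (n : ℕ) :
    ∃ (B : Basis (Fin (n + 1) → I) K (V n)) (E' H' : End K (V n)),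
      IsSl2 (D e n x) B (fun g => ∑ k, a (g k)) E' H' := by
  induction n with
  | zero =>
    refine ⟨_, E, H, sl_reindex (N := D e 0 x) h0 (Equiv.funUnique (Fin 1) I).symm _ fun g => ?_⟩
    simp
  | succ n ih =>
    obtain ⟨B, E', H', h1⟩ := ih
    have h2 := Pool.Agent.Y210.MW.t_B3 K (V 0) (V n) x I b a E H (D e n x) _ B _ E' H' h0 h1
    have h3 := h2.map (e n) (N' := D e (n + 1) x) (fun z => by
      rw [D_succ]
      induction z using TensorProduct.induction_on with
      | zero => simp only [map_zero]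
      | tmul u w =>
        rw [LinearMap.add_apply, Rh_apply, Lh_apply, LinearMap.add_apply, TensorProduct.map_tmul,
          TensorProduct.map_tmul, map_add, LinearMap.id_apply, LinearMap.id_apply]
      | add y z hy hz => rw [map_add, map_add, map_add, map_add, hy, hz])
    refine ⟨_, _, _, sl_reindex h3 (Fin.consEquiv (fun _ => I)) _ fun g => ?_⟩
    rw [Fin.sum_univ_succ]
    rfl

theorem two_le_finrank {x : End K (V 0)} (hx0 : x ≠ 0) (hx : IsNilpotent x) :
    2 ≤ finrank K (V 0) := by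
  obtain ⟨T⟩ := exists_jordan _ (V 0) x hx rfl
  obtain ⟨p, p', hpp⟩ := exists_two T hx0
  have hne : p ≠ p' := fun h1 => by
    rw [h1] at hpp
    omega
  rw [finrank_eq_card_basis T.b]
  exact Fintype.one_lt_card_iff.2 ⟨p, p', hne⟩

/-- **The kernel of the induced operator.** -/
theorem ker_bound {x : End K (V 0)} (hx0 : x ≠ 0) (hx : IsNilpotent x) (n : ℕ) :
    2 * ((n : ℝ) + 2) * (finrank K (LinearMap.ker (D e n x)) : ℝ) ^ 2 ≤
      (finrank K (V 0) : ℝ) * ((finrank K (V 0) : ℝ) ^ (n + 1)) ^ 2 := by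
  classical
  obtain ⟨T⟩ := exists_jordan _ (V 0) x hx rfl
  obtain ⟨E, H, hs⟩ := Pool.Agent.Y664.MW.t_B2 K (V 0) _ x T
  obtain ⟨B, E', H', h1⟩ := sl_tower e hs n
  have hk := Pool.Agent.N536.MW.b1 K (V n) (D e n x) _ B _ E' H' h1
  obtain ⟨p, p', hpp⟩ := exists_two T hx0
  have hne : p ≠ p' := fun h1 => by
    rw [h1] at hpp
    omega
  have hb : finrank K (V 0) = Fintype.card T.P := finrank_eq_card_basis T.b
  have h1 := count_le' hne (fun g : Fin (n + 1) → T.P =>
    ∑ k, T.ct (g k) = 0 ∨ ∑ k, T.ct (g k) = 1) (fun g R R' => det_reset T.ct hpp g R R')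
  have hk' : finrank K (LinearMap.ker (D e n x)) =
      Nat.card {g : Fin (n + 1) → T.P // ∑ k, T.ct (g k) = 0 ∨ ∑ k, T.ct (g k) = 1} := hk
  rw [hk', hb, Nat.card_eq_fintype_card, Fintype.card_subtype]
  push_cast at h1 ⊢
  have h3 : (n : ℝ) + 1 + 1 = n + 2 := by ring
  rw [h3] at h1
  exact h1

end Pool.Agent.N536.SL
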