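import Pool.Agent.N536.FS.TDefs

/-!
# Cohomology theories with an action of the absolute Galois group
-/

set_option autoImplicit false

open Module TensorProduct AlgebraicGeometry

namespace Pool.Agent.N536.SL

open Pool.Agent.N536.FS (SVar powK)

universe u v w x

/-- The data given by the cohomology of a variety over `F` with coefficients in `K` (in the
applications `K` is the field of `p`-adic numbers and `G` is the absolute Galois group of `F`): the
space `V = ⨁ H^m`, its parts `gr m = H^m` and the action `ρ` of the group `G`. -/
structure GCoh (K : Type w) [Field K] (G : Type x) [Group G] where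
  /-- the cohomology -/
  V : Type v
  [addCommGroup : AddCommGroup V]
  [module : Module K V]
  /-- the cohomology in degree `m` -/
  gr : ℕ → Submodule K V
  /-- the action of the group -/
  ρ : Representation K G V

attribute [instance] GCoh.addCommGroup GCoh.module

namespace GCoh

variable {K : Type w} [Field K] {G : Type x} [Group G] (R : GCoh.{v, w, x} K G)

/-- The action of an element of the group. -/
def act (g : G) (x : R.V) : R.V := R.ρ g x

/-- The subspace is stable under the group. -/
def Stable (C : Submodule K R.V) : Prop := ∀ g, ∀ x ∈ C, R.act g x ∈ C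

/-- The known properties: the cohomology is of finite dimension and the sum of its parts `H^m`, which
are stable, and the representation is continuous: its matrix coefficients are continuous. -/
structure IsGCoh [TopologicalSpace K] [TopologicalSpace G] : Prop where
  finite : Module.Finite K R.V
  isInternal : DirectSum.IsInternal R.gr
  stable : ∀ m, R.Stable (R.gr m)
  continuous : ∀ (φ : R.V →ₗ[K] K) (x : R.V), Continuous fun g => φ (R.act g x)

/-- The quotient `A / B` of stable subspaces is a semisimple representation: every stable subspace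
`C` between `B` and `A` has a stable complement modulo `B`. -/
def SemisimpleQuot (B A : Submodule K R.V) : Prop :=
  ∀ C, R.Stable C → B ≤ C → C ≤ A → ∃ C', R.Stable C' ∧ C ⊓ C' = B ∧ C ⊔ C' = A

/-- The representation `H^m` is semisimple. -/
def Semisimple (m : ℕ) : Prop := R.SemisimpleQuot ⊥ (R.gr m)

/-- The stable subspace `A` has Loewy length at most `l`: there is a filtration by `l` steps
with stable subspaces and semisimple quotients. -/
def LoewyLE (A : Submodule K R.V) (l : ℕ) : Prop :=
  ∃ W : ℕ → Submodule K R.V, W 0 = ⊥ ∧ W l = A ∧ (∀ i ≤ l, R.Stable (W i)) ∧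
    ∀ i < l, W i ≤ W (i + 1) ∧ R.SemisimpleQuot (W i) (W (i + 1))

/-- The stable subspace `A` has Loewy length at least `l`. -/
def LoewyGE (A : Submodule K R.V) (l : ℕ) : Prop := ∀ l', R.LoewyLE A l' → l ≤ l'

/-- `A / B` is a semisimple subquotient: `B` and `A` are stable subspaces. -/
def IsSemisimpleSubquot (B A : Submodule K R.V) : Prop :=
  R.Stable B ∧ R.Stable A ∧ B ≤ A ∧ R.SemisimpleQuot B A

/-- The dimension of the quotient `A / B`. -/
noncomputable def dimQuot (B A : Submodule K R.V) : ℝ :=
  (finrank K A : ℝ) - finrank K B

/-- All semisimple subquotients have dimension at most `d`. -/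
def SubquotLE (d : ℝ) : Prop := ∀ B A, R.IsSemisimpleSubquot B A → R.dimQuot B A ≤ d

/-- There is a semisimple subquotient of dimension at least `d`. -/
def SubquotGE (d : ℝ) : Prop := ∃ B A, R.IsSemisimpleSubquot B A ∧ d ≤ R.dimQuot B A

/-- The dimension of the cohomology. -/
noncomputable def betti : ℕ := finrank K R.V

end GCoh

section

variable {K : Type w} [Field K] {G : Type x} [Group G]

/-- The isomorphism respects the degrees. -/
def GradedK (R R' R'' : GCoh.{v, w, x} K G) (κ : R.V ⊗[K] R'.V ≃ₗ[K] R''.V) : Prop :=
  ∀ m n x y, x ∈ R.gr m → y ∈ R'.gr n → κ (x ⊗ₜ y) ∈ R''.gr (m + n)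

/-- The isomorphism respects the actions of the group. -/
def EquivariantK (R R' R'' : GCoh.{v, w, x} K G) (κ : R.V ⊗[K] R'.V ≃ₗ[K] R''.V) : Prop :=
  ∀ g x y, R''.act g (κ (x ⊗ₜ y)) = κ (R.act g x ⊗ₜ R'.act g y)

/-- The Künneth formula: there is an isomorphism of the tensor product of `R` and `R'` with `R''`
which respects the degrees and the actions of the group. -/
def GKunneth (R R' R'' : GCoh.{v, w, x} K G) : Prop :=
  ∃ κ : R.V ⊗[K] R'.V ≃ₗ[K] R''.V, GradedK R R' R'' κ ∧ EquivariantK R R' R'' κ

/-- The powers `X^(n + 1)`. -/
noncomputable def vpow {F : Type u} [Field F] (X : SVar.{u} F) (n : ℕ) : SVar.{u} F :=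
  powK SVar.prod X n

variable {F : Type u} [Field F] (P : SVar.{u} F → Prop) (H : SVar.{u} F → GCoh.{v, w, x} K G)

/-- The cohomology `H` has the known properties on the class `P` of varieties over `F`, which is
closed under products. -/
structure IsGTheory [TopologicalSpace K] [TopologicalSpace G] : Prop where
  prod : ∀ X Y, P X → P Y → P (X.prod Y)
  coh : ∀ X, P X → (H X).IsGCoh
  kunneth : ∀ X Y, P X → P Y → GKunneth (H X) (H Y) (H (X.prod Y))

/-- The cohomology of all the varieties in the class `P` is semisimple in all the degrees. -/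
def AllSemisimple : Prop := ∀ X, P X → ∀ m, (H X).Semisimple m

/-- The cohomology of every variety `Y` in the class `P` has a semisimple subquotient of dimension
at least `f(b) b`, where `b` is the dimension of the cohomology of `Y`. -/
def LargeSubquots (f : ℕ → ℝ) : Prop :=
  ∀ Y, P Y → (H Y).SubquotGE (f (H Y).betti * (H Y).betti)

/-- The cohomology of every variety `Y` in the class `P` in degree `i` has Loewy length at most
`g(i + log b)`, where `b` is the dimension of the cohomology of `Y`. -/
def LoewyBound (g : ℝ → ℝ) : Prop :=
  ∀ Y, P Y → ∀ i : ℕ, ∃ l : ℕ, (l : ℝ) ≤ g (i + Real.log (H Y).betti) ∧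
    (H Y).LoewyLE ((H Y).gr i) l

/-- All semisimple subquotients of the cohomology of `X^(n + 1)` have dimension at most
`(b(X) / (2 n + 4))^(1/2) b(X^(n + 1))`, and its Loewy length is at least `n + 2`, for all `n`. -/
def PowerLaw (X : SVar.{u} F) : Prop := ∀ n : ℕ,
  (H (vpow X n)).SubquotLE (√((H X).betti / (2 * n + 4)) * (H (vpow X n)).betti) ∧
    (H (vpow X n)).LoewyGE ⊤ (n + 2)

end

end Pool.Agent.N536.SL
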