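import Pool.Agent.N536.SL.Tr
import Pool.Agent.N817.PL.Split

/-!
# Lie algebras of endomorphisms without characteristic ideals of nilpotent endomorphisms
-/

set_option autoImplicit false
set_option linter.unusedSectionVars false

namespace Pool.Agent.N536.SL

open Module LieAlgebra

attribute [local instance 100] LieRing.ofAssociativeRing

variable {K V : Type*} [Field K] [CharZero K] [AddCommGroup V] [Module K V]
  [FiniteDimensional K V] {L : LieSubalgebra K (End K V)}

/-- ideals which are stable under the automorphisms of the Lie algebra which respect nilpotency -/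
def Ch (I : LieIdeal K L) : Prop :=
  ∀ φ : L ≃ₗ⁅K⁆ L, (∀ x : L, IsNilpotent (x : End K V) → IsNilpotent (φ x : End K V)) →
    ∀ x ∈ I, φ x ∈ I

theorem mem_lie_iff {I J : LieIdeal K L} {x : L} :
    x ∈ ⁅I, J⁆ ↔ x ∈ Submodule.span K {z : L | ∃ a ∈ I, ∃ b ∈ J, ⁅a, b⁆ = z} := by
  rw [← LieSubmodule.mem_toSubmodule, LieSubmodule.lieIdeal_oper_eq_linear_span']

theorem ch_lie {I J : LieIdeal K L} (hI : Ch I) (hJ : Ch J) : Ch ⁅I, J⁆ := by
  intro φ hφ x hx
  rw [mem_lie_iff] at hx
  induction hx using Submodule.span_induction with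
  | mem x hx =>
    obtain ⟨a, ha, b, hb, rfl⟩ := hx
    rw [LieEquiv.map_lie]
    exact LieSubmodule.lie_mem_lie (hI φ hφ a ha) (hJ φ hφ b hb)
  | zero => rw [map_zero]; exact LieSubmodule.zero_mem _
  | add a b _ _ ha hb => rw [map_add]; exact add_mem ha hb
  | smul c a _ ha =>
    rw [map_smul]
    exact Submodule.smul_mem (⁅I, J⁆ : LieIdeal K L).toSubmodule c ha

theorem ch_top : Ch (⊤ : LieIdeal K L) := fun _ _ _ _ => LieSubmodule.mem_top _

theorem ch_radical : Ch (radical K L) := by
  intro φ _ x hx
  let f : L →ₗ⁅K⁆ L := φ.symm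
  have h1 : LieAlgebra.IsSolvable ((radical K L).comap f) := by
    let g : ((radical K L).comap f) →ₗ⁅K⁆ (radical K L) :=
      { toFun := fun y => ⟨f y, (LieIdeal.mem_comap).1 y.2⟩
        map_add' := fun y z => Subtype.ext (map_add f (y : L) z)
        map_smul' := fun c y => Subtype.ext (map_smul f c (y : L))
        map_lie' := fun {y z} => Subtype.ext (LieHom.map_lie f (y : L) z) }
    refine Function.Injective.lieAlgebra_isSolvable (f := g) fun y z hyz => ?_
    have h2 : f y = f z := congrArg Subtype.val hyz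
    exact Subtype.ext (φ.symm.injective h2)
  have h2 := (LieIdeal.solvable_iff_le_radical K L ((radical K L).comap f)).1 h1
  apply h2
  rw [LieIdeal.mem_comap]
  have h3 : f (φ x) = x := φ.symm_apply_apply x
  rw [h3]
  exact hx

theorem ch_derived {I : LieIdeal K L} (hI : Ch I) (k : ℕ) : Ch (derivedSeriesOfIdeal K L k I) := by
  induction k with
  | zero => exact hI
  | succ k ih =>
    rw [derivedSeriesOfIdeal_succ]
    exact ch_lie ih ih

theorem coe_lie (x y : L) : ((⁅x, y⁆ : L) : End K V) = (x : End K V) * y - y * x := rfl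

theorem nil_of_abelian {J : LieIdeal K L}
    (hJ : ∀ x ∈ J, ∀ y ∈ J, (x : End K V) * y = y * x) (x : L)
    (hx : x ∈ ⁅(⊤ : LieIdeal K L), J⁆) : IsNilpotent (x : End K V) := by
  have hxJ : x ∈ J := LieSubmodule.lie_le_right _ _ hx
  have key : ∀ a : End K V, (∀ y ∈ J, (y : End K V) * a = a * y) →
      LinearMap.trace K V ((x : End K V) * a) = 0 := by
    intro a ha
    rw [mem_lie_iff] at hx
    clear hxJ
    induction hx using Submodule.span_induction with
    | mem x hx =>
      obtain ⟨l, -, j, hj, rfl⟩ := hx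
      rw [coe_lie, sub_mul, map_sub, mul_assoc, mul_assoc, ha j hj,
        LinearMap.trace_mul_comm K (j : End K V), mul_assoc, sub_self]
    | zero => simp
    | add b c _ _ hb hc =>
      change LinearMap.trace K V (((b : End K V) + c) * a) = 0
      rw [add_mul, map_add, hb, hc, add_zero]
    | smul r b _ hb =>
      change LinearMap.trace K V ((r • (b : End K V)) * a) = 0
      rw [smul_mul_assoc, map_smul, hb, smul_zero]
  apply nilp_of_trace
  intro m
  rw [pow_succ']
  refine key _ fun y hy => ?_
  exact (Commute.pow_right (hJ y hy x hxJ) m).eq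

theorem nil_of_central (x : L) (hx : x ∈ ⁅(⊤ : LieIdeal K L), (⊤ : LieIdeal K L)⁆)
    (hc : ∀ y : L, (x : End K V) * y = y * x) : IsNilpotent (x : End K V) := by
  have key : ∀ a : End K V, (∀ y : L, (y : End K V) * a = a * y) →
      LinearMap.trace K V ((x : End K V) * a) = 0 := by
    intro a ha
    rw [mem_lie_iff] at hx
    clear hc
    induction hx using Submodule.span_induction with
    | mem x hx =>
      obtain ⟨l, -, j, -, rfl⟩ := hx
      rw [coe_lie, sub_mul, map_sub, mul_assoc, mul_assoc, ha j,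
        LinearMap.trace_mul_comm K (j : End K V), mul_assoc, sub_self]
    | zero => simp
    | add b c _ _ hb hc =>
      change LinearMap.trace K V (((b : End K V) + c) * a) = 0
      rw [add_mul, map_add, hb, hc, add_zero]
    | smul r b _ hb =>
      change LinearMap.trace K V ((r • (b : End K V)) * a) = 0
      rw [smul_mul_assoc, map_smul, hb, smul_zero]
  apply nilp_of_trace
  intro m
  rw [pow_succ']
  refine key _ fun y => ?_
  exact (Commute.pow_right (hc y).symm m).eq

theorem mem_center_iff' {x : L} : x ∈ center K L ↔ ∀ y : L, (x : End K V) * y = y * x := by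
  rw [LieModule.mem_maxTrivSubmodule]
  constructor
  · intro h y
    have h1 := congrArg (fun z : L => (z : End K V)) (h y)
    simp only [coe_lie] at h1
    exact (sub_eq_zero.1 h1).symm
  · intro h y
    apply Subtype.ext
    rw [coe_lie, h y, sub_self]
    rfl

/-- **The radical is the center**, unless there is a characteristic ideal of nilpotent
endomorphisms. -/
theorem radical_eq_center (H : ∀ I : LieIdeal K L, Ch I →
    (∀ x ∈ I, IsNilpotent (x : End K V)) → I = ⊥) : radical K L = center K L := by
  refine le_antisymm ?_ (center_le_radical K L)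
  have hs : ∃ k, derivedSeriesOfIdeal K L k (radical K L) = ⊥ := by
    obtain ⟨k, hk⟩ := LieAlgebra.IsSolvable.solvable K (radical K L)
    exact ⟨k, (LieIdeal.derivedSeries_eq_bot_iff _ _).1 hk⟩
  classical
  have hk := Nat.find_spec hs
  have hmin : ∀ m, m < Nat.find hs → derivedSeriesOfIdeal K L m (radical K L) ≠ ⊥ :=
    fun m hm => Nat.find_min hs hm
  set k := Nat.find hs with hkdef
  clear_value k
  rcases Nat.eq_zero_or_pos k with h0 | h0
  · rw [h0, derivedSeriesOfIdeal_zero] at hk
    rw [hk]
    exact bot_le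
  obtain ⟨m, rfl⟩ : ∃ m, k = m + 1 := ⟨k - 1, by omega⟩
  set J := derivedSeriesOfIdeal K L m (radical K L) with hJ
  have hJc : Ch J := ch_derived ch_radical m
  have hab : ∀ x ∈ J, ∀ y ∈ J, (x : End K V) * y = y * x := by
    intro x hx y hy
    have h1 : ⁅x, y⁆ ∈ ⁅J, J⁆ := LieSubmodule.lie_mem_lie hx hy
    rw [hJ, ← derivedSeriesOfIdeal_succ, hk, LieSubmodule.mem_bot] at h1
    have h2 := congrArg (fun z : L => (z : End K V)) h1
    simp only [coe_lie] at h2
    exact sub_eq_zero.1 h2
  have h1 : ⁅(⊤ : LieIdeal K L), J⁆ = ⊥ := H _ (ch_lie ch_top hJc) (nil_of_abelian hab)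
  have hJcen : J ≤ center K L := by
    intro x hx
    rw [LieModule.mem_maxTrivSubmodule]
    intro y
    have h2 : ⁅y, x⁆ ∈ ⁅(⊤ : LieIdeal K L), J⁆ := LieSubmodule.lie_mem_lie (LieSubmodule.mem_top y) hx
    rw [h1, LieSubmodule.mem_bot] at h2
    exact h2
  rcases Nat.eq_zero_or_pos m with hm | hm
  · rw [hm, derivedSeriesOfIdeal_zero] at hJ
    rw [← hJ]
    exact hJcen
  · exfalso
    obtain ⟨l, rfl⟩ : ∃ l, m = l + 1 := ⟨m - 1, by omega⟩
    refine hmin (l + 1) (by omega) (H _ hJc fun x hx => ?_)
    refine nil_of_central x ?_ (mem_center_iff'.1 (hJcen hx))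
    rw [derivedSeriesOfIdeal_succ] at hx
    exact LieSubmodule.mono_lie le_top le_top hx

end Pool.Agent.N536.SL
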