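import Pool.Agent.N536.SL.LieA
import Pool.Agent.R918.Weyl

/-!
# Complete reducibility
-/

set_option autoImplicit false
set_option linter.unusedSectionVars false
set_option linter.deprecated false

namespace Pool.Agent.N536.SL

open Module LieAlgebra

attribute [local instance 100] LieRing.ofAssociativeRing

section proj

variable {K V : Type*} [Field K] [CharZero K] [AddCommGroup V] [Module K V]
  [FiniteDimensional K V]

/-- A commuting family of semisimple endomorphisms. -/
theorem exists_proj_comm (S : Set (End K V)) (hc : ∀ a ∈ S, ∀ b ∈ S, a * b = b * a)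
    (hs : ∀ a ∈ S, a.IsSemisimple) (W : Submodule K V) (hW : ∀ a ∈ S, ∀ w ∈ W, a w ∈ W) :
    ∃ f : End K V, (∀ v, f v ∈ W) ∧ (∀ w ∈ W, f w = w) ∧ ∀ a ∈ S, a * f = f * a := by
  let A := Algebra.adjoin K S
  have hss : ∀ a ∈ A, a.IsSemisimple := by
    have hcom : ∀ a ∈ A, ∀ b ∈ A, Commute a b := by
      have hm : IsMulCommutative A := Algebra.isMulCommutative_adjoin K hc
      intro a ha b hb
      exact congrArg Subtype.val (hm.is_comm.comm (⟨a, ha⟩ : A) ⟨b, hb⟩)
    intro a ha
    induction ha using Algebra.adjoin_induction with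
    | mem x hx => exact hs x hx
    | algebraMap r =>
      have := (Module.End.isSemisimple_sub_algebraMap_iff (f := (algebraMap K (End K V) r))
        (μ := r)).1
      apply this
      rw [sub_self]
      exact Module.End.isSemisimple_zero
    | add x y hx hy h1 h2 => exact h1.add_of_commute (hcom x hx y hy) h2
    | mul x y hx hy h1 h2 => exact h1.mul_of_commute (hcom x hx y hy) h2
  let _ : CommRing A := Algebra.adjoinCommRingOfComm K hc
  have hred : IsReduced A := by
    refine ⟨fun x hx => ?_⟩
    apply Subtype.ext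
    refine Module.End.eq_zero_of_isNilpotent_isSemisimple ?_ (hss x x.2)
    obtain ⟨n, hn⟩ := hx
    exact ⟨n, by
      have := congrArg Subtype.val hn
      simpa using this⟩
  have hart : IsArtinianRing A := IsArtinianRing.of_finite K A
  have hsem : IsSemisimpleRing A := IsArtinianRing.isSemisimpleRing_of_isReduced A
  have hWA : ∀ a ∈ A, ∀ w ∈ W, a w ∈ W := by
    intro a ha
    induction ha using Algebra.adjoin_induction with
    | mem x hx => exact hW x hx
    | algebraMap r => exact fun w hw => W.smul_mem r hw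
    | add x y _ _ h1 h2 => exact fun w hw => W.add_mem (h1 w hw) (h2 w hw)
    | mul x y _ _ h1 h2 => exact fun w hw => h1 _ (h2 w hw)
  let W' : Submodule A V :=
    { W with smul_mem' := fun a w hw => hWA a a.2 w hw }
  obtain ⟨U', hU'⟩ := exists_isCompl W'
  let U : Submodule K V := U'.restrictScalars K
  have hU : IsCompl W U := by
    rw [isCompl_iff, disjoint_iff, codisjoint_iff] at hU' ⊢
    constructor
    · rw [Submodule.eq_bot_iff]
      rintro x ⟨h1, h2⟩
      have : x ∈ W' ⊓ U' := ⟨h1, h2⟩
      rw [hU'.1] at this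
      exact this
    · rw [eq_top_iff]
      intro x _
      have : x ∈ W' ⊔ U' := by rw [hU'.2]; trivial
      obtain ⟨a, ha, b, hb, rfl⟩ := Submodule.mem_sup.1 this
      exact Submodule.add_mem_sup ha hb
  let f : End K V := W.subtype ∘ₗ W.projectionOnto U hU
  have hf1 : ∀ w ∈ W, f w = w := fun w hw =>
    congrArg Subtype.val (Submodule.projectionOnto_apply_left hU ⟨w, hw⟩)
  have hf0 : ∀ u ∈ U, f u = 0 := fun u hu =>
    congrArg Subtype.val ((Submodule.projectionOnto_apply_eq_zero_iff hU (x := u)).2 hu)
  refine ⟨f, fun v => (W.projectionOnto U hU v).2, hf1, fun a ha => ?_⟩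
  ext v
  have : v ∈ W ⊔ U := by rw [hU.sup_eq_top]; trivial
  obtain ⟨x, hx, y, hy, rfl⟩ := Submodule.mem_sup.1 this
  have hay : a y ∈ U := U'.smul_mem (⟨a, Algebra.subset_adjoin ha⟩ : A) hy
  rw [Module.End.mul_apply, Module.End.mul_apply, map_add, map_add, map_add, map_add, hf1 x hx,
    hf0 y hy, hf1 _ (hW a ha x hx), hf0 _ hay, map_zero]

end proj

section quot

variable {K L L' : Type*} [Field K] [LieRing L] [LieAlgebra K L] [LieRing L'] [LieAlgebra K L']

/-- the universal property of the quotient -/
def qlift (I : LieIdeal K L) (f : L →ₗ⁅K⁆ L') (h : ∀ x ∈ I, f x = 0) : L ⧸ I →ₗ⁅K⁆ L' :=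
  { (I.toSubmodule.liftQ (f : L →ₗ[K] L') (fun x hx => h x hx) : L ⧸ I →ₗ[K] L') with
    map_lie' := by
      intro x y
      obtain ⟨x, rfl⟩ := Pool.Agent.N817.PL.Split.quo_surj I x
      obtain ⟨y, rfl⟩ := Pool.Agent.N817.PL.Split.quo_surj I y
      rw [← LieHom.map_lie]
      exact LieHom.map_lie f x y }

theorem qlift_quo (I : LieIdeal K L) (f : L →ₗ⁅K⁆ L') (h : ∀ x ∈ I, f x = 0) (x : L) :
    qlift I f h (Pool.Agent.N817.PL.Split.quo I x) = f x := rfl

/-- The quotient by the radical has trivial radical. -/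
theorem radical_quot [FiniteDimensional K L] : HasTrivialRadical K (L ⧸ radical K L) := by
  constructor
  rw [eq_bot_iff]
  intro x hx
  obtain ⟨x, rfl⟩ := Pool.Agent.N817.PL.Split.quo_surj (radical K L) x
  set R := radical K L with hR
  set Q := Pool.Agent.N817.PL.Split.quo R with hQ
  let I : LieIdeal K L := (radical K (L ⧸ R)).comap Q
  have hRI : R ≤ I := by
    intro y hy
    rw [LieIdeal.mem_comap]
    have : Q y = 0 := (LieSubmodule.Quotient.mk_eq_zero' (N := R)).2 hy
    rw [this]
    exact LieSubmodule.zero_mem _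
  have hI : LieAlgebra.IsSolvable I := by
    obtain ⟨m, hm⟩ := IsSolvable.solvable K (radical K (L ⧸ R))
    obtain ⟨l, hl⟩ := IsSolvable.solvable K R
    rw [LieIdeal.derivedSeries_eq_bot_iff] at hl hm
    have h2 : ∀ k, ∀ y ∈ derivedSeriesOfIdeal K L k I,
        Q y ∈ derivedSeriesOfIdeal K (L ⧸ R) k (radical K (L ⧸ R)) := by
      intro k
      induction k with
      | zero => exact fun y hy => (LieIdeal.mem_comap).1 hy
      | succ k ih =>
        intro y hy
        rw [derivedSeriesOfIdeal_succ] at hy ⊢
        rw [← LieSubmodule.mem_toSubmodule, LieSubmodule.lieIdeal_oper_eq_linear_span'] at hy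
        induction hy using Submodule.span_induction with
        | mem z hz =>
          obtain ⟨a, ha, b, hb, rfl⟩ := hz
          rw [LieHom.map_lie]
          exact LieSubmodule.lie_mem_lie (ih a ha) (ih b hb)
        | zero => rw [map_zero]; exact LieSubmodule.zero_mem _
        | add a b _ _ ha hb => rw [map_add]; exact add_mem ha hb
        | smul c a _ ha =>
          rw [map_smul]
          exact Submodule.smul_mem (LieSubmodule.toSubmodule _) c ha
    have h3 : derivedSeriesOfIdeal K L m I ≤ R := by
      intro y hy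
      have h4 := h2 m y hy
      rw [hm, LieSubmodule.mem_bot] at h4
      exact (LieSubmodule.Quotient.mk_eq_zero' (N := R)).1 h4
    refine IsSolvable.mk (R := K) (k := l + m) ?_
    rw [LieIdeal.derivedSeries_eq_bot_iff, derivedSeriesOfIdeal_add, eq_bot_iff]
    refine le_trans (derivedSeriesOfIdeal_mono h3 l) ?_
    rw [hl]
  have h5 := (LieIdeal.solvable_iff_le_radical K L I).1 hI
  have h6 : x ∈ R := h5 ((LieIdeal.mem_comap).2 hx)
  have : Q x = 0 := (LieSubmodule.Quotient.mk_eq_zero' (N := R)).2 h6
  rw [this]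
  exact LieSubmodule.zero_mem _

end quot

end Pool.Agent.N536.SL
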