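import Pool.Agent.N536.SL.LieB

/-!
# Complete reducibility of Lie algebras which contain the nilpotent parts of their elements
-/

set_option autoImplicit false
set_option linter.unusedSectionVars false

namespace Pool.Agent.N536.SL

open Module LieAlgebra

attribute [local instance 100] LieRing.ofAssociativeRing

variable {K V : Type*} [Field K] [CharZero K] [AddCommGroup V] [Module K V]
  [FiniteDimensional K V] {L : LieSubalgebra K (End K V)}

/-- The Lie algebra contains the nilpotent parts of its elements. -/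
def JClosed (L : LieSubalgebra K (End K V)) : Prop :=
  ∀ x ∈ L, ∀ n ∈ Algebra.adjoin K {x}, ∀ s ∈ Algebra.adjoin K {x}, IsNilpotent n →
    s.IsSemisimple → x = n + s → n ∈ L

/-- There is no nonzero characteristic ideal of nilpotent endomorphisms. -/
def NoNil (L : LieSubalgebra K (End K V)) : Prop :=
  ∀ I : LieIdeal K L, Ch I → (∀ x ∈ I, IsNilpotent (x : End K V)) → I = ⊥

/-- the nilpotent elements of the center -/
def nilCenter (L : LieSubalgebra K (End K V)) : LieIdeal K L where
  carrier := {z | z ∈ center K L ∧ IsNilpotent (z : End K V)}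
  add_mem' := by
    rintro a b ⟨ha, ha'⟩ ⟨hb, hb'⟩
    exact ⟨add_mem ha hb, Commute.isNilpotent_add (mem_center_iff'.1 ha b) ha' hb'⟩
  zero_mem' := ⟨LieSubmodule.zero_mem _, IsNilpotent.zero⟩
  smul_mem' := by
    rintro c a ⟨ha, ha'⟩
    exact ⟨Submodule.smul_mem (center K L).toSubmodule c ha, ha'.smul c⟩
  lie_mem := by
    rintro x a ⟨ha, ha'⟩
    have h1 : ⁅x, a⁆ = 0 := (LieModule.mem_maxTrivSubmodule K L L a).1 ha x
    rw [h1]
    exact ⟨LieSubmodule.zero_mem _, IsNilpotent.zero⟩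

theorem mem_nilCenter {z : L} : z ∈ nilCenter L ↔ z ∈ center K L ∧ IsNilpotent (z : End K V) :=
  Iff.rfl

theorem ch_nilCenter : Ch (nilCenter L) := by
  rintro φ hφ z ⟨hz, hz'⟩
  refine ⟨?_, hφ z hz'⟩
  rw [LieModule.mem_maxTrivSubmodule] at hz ⊢
  intro y
  have h1 := hz (φ.symm y)
  have h2 := congrArg φ h1
  rw [LieEquiv.map_lie, LieEquiv.apply_symm_apply, map_zero] at h2
  exact h2

theorem center_semisimple (hJ : JClosed L) (H : NoNil L) (z : L) (hz : z ∈ center K L) :
    (z : End K V).IsSemisimple := by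
  obtain ⟨n, hn, s, hs, hnil, hss, hzn⟩ :=
    Module.End.exists_isNilpotent_isSemisimple (f := (z : End K V))
  have h1 : n ∈ L := hJ z z.2 n hn s hs hnil hss hzn
  have h2 : (⟨n, h1⟩ : L) ∈ nilCenter L := by
    refine ⟨mem_center_iff'.2 fun y => ?_, hnil⟩
    have h3 : Commute (y : End K V) n :=
      Algebra.commute_of_mem_adjoin_singleton_of_commute hn (mem_center_iff'.1 hz y).symm
    exact h3.symm.eq
  rw [H _ ch_nilCenter fun x hx => hx.2, LieSubmodule.mem_bot] at h2
  have h3 : n = 0 := congrArg Subtype.val h2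
  rw [hzn, h3, zero_add]
  exact hss

/-- the endomorphisms which commute with the center -/
def MZ (L : LieSubalgebra K (End K V)) : LieSubmodule K L (End K V) where
  carrier := {f | ∀ z ∈ center K L, (z : End K V) * f = f * z}
  add_mem' := by
    intro f g hf hg z hz
    rw [mul_add, add_mul, hf z hz, hg z hz]
  zero_mem' := by
    intro z _
    rw [mul_zero, zero_mul]
  smul_mem' := by
    intro c f hf z hz
    rw [mul_smul_comm, smul_mul_assoc, hf z hz]
  lie_mem := by
    intro x f hf z hz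
    have h1 := mem_center_iff'.1 hz x
    have h2 := hf z hz
    change (z : End K V) * ((x : End K V) * f - f * x) = ((x : End K V) * f - f * x) * z
    rw [mul_sub, sub_mul, ← mul_assoc, ← mul_assoc, h1, h2, mul_assoc, h2, mul_assoc f _ (z : End K V),
      ← h1]
    simp only [mul_assoc]

theorem mem_MZ {f : End K V} : f ∈ MZ L ↔ ∀ z ∈ center K L, (z : End K V) * f = f * z := Iff.rfl

/-- **Complete reducibility.** -/
theorem exists_compl (hJ : JClosed L) (H : NoNil L) (W : Submodule K V)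
    (hW : ∀ x ∈ L, ∀ w ∈ W, x w ∈ W) :
    ∃ W' : Submodule K V, (∀ x ∈ L, ∀ w ∈ W', x w ∈ W') ∧ IsCompl W W' := by
  by_cases hbot : W = ⊥
  · exact ⟨⊤, fun _ _ _ _ => trivial, by rw [hbot]; exact isCompl_bot_top⟩
  have hrc := radical_eq_center H
  have hQ : HasTrivialRadical K (L ⧸ radical K L) := radical_quot
  -- the projection which commutes with the center
  obtain ⟨f₀, hf1, hf2, hf3⟩ := exists_proj_comm (S := {a : End K V | ∃ z ∈ center K L, a = z})
    (by
      rintro _ ⟨a, ha, rfl⟩ _ ⟨b, hb, rfl⟩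
      exact mem_center_iff'.1 ha b) (by
      rintro _ ⟨a, ha, rfl⟩
      exact center_semisimple hJ H a ha) W (by
      rintro _ ⟨a, ha, rfl⟩
      exact hW a a.2)
  -- the module over the quotient
  let act : L →ₗ⁅K⁆ End K (MZ L) := LieModule.toEnd K L (MZ L)
  have hact : ∀ x ∈ radical K L, act x = 0 := by
    intro x hx
    rw [hrc] at hx
    ext m : 1
    apply Subtype.ext
    change (x : End K V) * (m : End K V) - m * x = 0
    rw [m.2 x hx, sub_self]
  let q := qlift (radical K L) act hact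
  let _ : LieRingModule (L ⧸ radical K L) (MZ L) := LieRingModule.compLieHom (MZ L) q
  have _ : LieModule K (L ⧸ radical K L) (MZ L) := LieModule.compLieHom (MZ L) q
  have hbr : ∀ (x : L) (m : MZ L), ((⁅Pool.Agent.N817.PL.Split.quo (radical K L) x, m⁆ : MZ L) :
      End K V) = (x : End K V) * m - m * x := fun x m => rfl
  let P : LieSubmodule K (L ⧸ radical K L) (MZ L) :=
    { carrier := {f | (∀ v, (f : End K V) v ∈ W) ∧ ∃ c : K, ∀ w ∈ W, (f : End K V) w = c • w}
      zero_mem' := ⟨fun m => W.zero_mem, 0, fun n _ => by rw [zero_smul]; rfl⟩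
      add_mem' := by
        rintro f g ⟨h1, c, h2⟩ ⟨h3, d, h4⟩
        exact ⟨fun m => W.add_mem (h1 m) (h3 m), c + d, fun n hn => by
          rw [add_smul, ← h2 n hn, ← h4 n hn]; rfl⟩
      smul_mem' := by
        rintro r f ⟨h1, c, h2⟩
        exact ⟨fun m => W.smul_mem r (h1 m), r * c, fun n hn => by
          rw [mul_smul, ← h2 n hn]; rfl⟩
      lie_mem := by
        rintro x f ⟨h1, c, h2⟩
        obtain ⟨x, rfl⟩ := Pool.Agent.N817.PL.Split.quo_surj (radical K L) x
        refine ⟨fun m => ?_, 0, fun n hn => ?_⟩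
        · rw [hbr]
          exact W.sub_mem (hW x x.2 _ (h1 m)) (h1 _)
        · rw [hbr, LinearMap.sub_apply, Module.End.mul_apply, Module.End.mul_apply, h2 n hn,
            h2 _ (hW x x.2 n hn), map_smul, sub_self, zero_smul] }
  let N' : LieSubmodule K (L ⧸ radical K L) (MZ L) :=
    { carrier := {f | (∀ v, (f : End K V) v ∈ W) ∧ ∀ w ∈ W, (f : End K V) w = 0}
      zero_mem' := ⟨fun m => W.zero_mem, fun n _ => rfl⟩
      add_mem' := by
        rintro f g ⟨h1, h2⟩ ⟨h3, h4⟩
        refine ⟨fun m => W.add_mem (h1 m) (h3 m), fun n hn => ?_⟩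
        change (f : End K V) n + (g : End K V) n = 0
        rw [h2 n hn, h4 n hn, add_zero]
      smul_mem' := by
        rintro r f ⟨h1, h2⟩
        refine ⟨fun m => W.smul_mem r (h1 m), fun n hn => ?_⟩
        change r • (f : End K V) n = 0
        rw [h2 n hn, smul_zero]
      lie_mem := by
        rintro x f ⟨h1, h2⟩
        obtain ⟨x, rfl⟩ := Pool.Agent.N817.PL.Split.quo_surj (radical K L) x
        refine ⟨fun m => ?_, fun n hn => ?_⟩
        · rw [hbr]
          exact W.sub_mem (hW x x.2 _ (h1 m)) (h1 _)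
        · rw [hbr, LinearMap.sub_apply, Module.End.mul_apply, Module.End.mul_apply, h2 n hn,
            h2 _ (hW x x.2 n hn), map_zero, sub_self] }
  have hP : ∀ f, f ∈ P ↔ (∀ v, (f : End K V) v ∈ W) ∧ ∃ c : K, ∀ w ∈ W, (f : End K V) w = c • w :=
    fun f => Iff.rfl
  have hN' : ∀ f, f ∈ N' ↔ (∀ v, (f : End K V) v ∈ W) ∧ ∀ w ∈ W, (f : End K V) w = 0 :=
    fun f => Iff.rfl
  have hf₀ : f₀ ∈ MZ L := fun z hz => hf3 z ⟨z, hz, rfl⟩
  have hlt : N' < P := by
    refine lt_of_le_of_ne (fun f hf => (hP f).2 ⟨((hN' f).1 hf).1, 0, fun n hn => by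
      rw [((hN' f).1 hf).2 n hn, zero_smul]⟩) fun heq => ?_
    have h1 : (⟨f₀, hf₀⟩ : MZ L) ∈ P :=
      (hP _).2 ⟨hf1, 1, fun n hn => by rw [one_smul]; exact hf2 n hn⟩
    rw [← heq] at h1
    refine hbot ((Submodule.eq_bot_iff _).2 fun n hn => ?_)
    rw [← hf2 n hn]
    exact ((hN' _).1 h1).2 n hn
  have hPN : ∀ (x : L ⧸ radical K L), ∀ f ∈ P, ⁅x, f⁆ ∈ N' := by
    intro x f hf
    obtain ⟨x, rfl⟩ := Pool.Agent.N817.PL.Split.quo_surj (radical K L) x
    obtain ⟨h1, c, h2⟩ := (hP f).1 hf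
    refine (hN' _).2 ⟨fun m => ?_, fun n hn => ?_⟩
    · rw [hbr]
      exact W.sub_mem (hW x x.2 _ (h1 m)) (h1 _)
    · rw [hbr, LinearMap.sub_apply, Module.End.mul_apply, Module.End.mul_apply, h2 n hn,
        h2 _ (hW x x.2 n hn), map_smul, sub_self]
  obtain ⟨f, hf, hfN, hfx⟩ := Pool.Agent.R918.Weyl.descent (M := MZ L) N' P hlt hPN
  obtain ⟨h1, c, h2⟩ := (hP f).1 hf
  have hc : c ≠ 0 := by
    rintro rfl
    exact hfN ((hN' f).2 ⟨h1, fun n hn => by rw [h2 n hn, zero_smul]⟩)
  have hcomm : ∀ x ∈ L, ∀ v, (f : End K V) (x v) = x ((f : End K V) v) := by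
    intro x hx v
    have h3 := congrArg Subtype.val (hfx (Pool.Agent.N817.PL.Split.quo (radical K L) ⟨x, hx⟩))
    rw [hbr] at h3
    have h4 := LinearMap.congr_fun h3 v
    rw [LinearMap.sub_apply, Module.End.mul_apply, Module.End.mul_apply] at h4
    exact (sub_eq_zero.1 h4).symm
  refine ⟨LinearMap.ker (f : End K V), fun x hx w hw => ?_, ?_⟩
  · rw [LinearMap.mem_ker] at hw ⊢
    rw [hcomm x hx, hw, map_zero]
  · rw [isCompl_iff, disjoint_iff, codisjoint_iff]
    constructor
    · rw [Submodule.eq_bot_iff]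
      rintro x ⟨hx, hx'⟩
      rw [SetLike.mem_coe, LinearMap.mem_ker, h2 x hx] at hx'
      exact (smul_eq_zero.1 hx').resolve_left hc
    · rw [eq_top_iff]
      intro v _
      have h3 : v = c⁻¹ • (f : End K V) v + (v - c⁻¹ • (f : End K V) v) := by abel
      rw [h3]
      refine Submodule.add_mem_sup (W.smul_mem _ (h1 v)) ?_
      rw [LinearMap.mem_ker, map_sub, map_smul, h2 _ (h1 v), smul_smul, inv_mul_cancel₀ hc,
        one_smul, sub_self]

end Pool.Agent.N536.SL
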