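import Pool.Agent.N536.SL.AA
import Pool.Agent.N817.PL.Nrm

/-!
# Logarithms
-/

set_option autoImplicit false
set_option linter.unusedSectionVars false

open Module TensorProduct Filter Topology

namespace Pool.Agent.N536.SL

section limits

variable {K : Type*} [Field K] [TopologicalSpace K] [IsTopologicalRing K]

/-- weak convergence of operators -/
def WL {W : Type*} [AddCommGroup W] [Module K W] (a : ℕ → End K W) (x : End K W) : Prop :=
  ∀ (φ : Dual K W) (v : W), Tendsto (fun k => φ (a k v)) atTop (𝓝 (φ (x v)))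

theorem tendsto_bilin {A B : Type*} [AddCommGroup A] [Module K A] [AddCommGroup B] [Module K B]
    [FiniteDimensional K A] (T : A →ₗ[K] B →ₗ[K] K) {a : ℕ → A} {a' : A} {c : ℕ → B} {c' : B}
    (ha : ∀ φ : Dual K A, Tendsto (fun k => φ (a k)) atTop (𝓝 (φ a')))
    (hc : ∀ φ : Dual K B, Tendsto (fun k => φ (c k)) atTop (𝓝 (φ c'))) :
    Tendsto (fun k => T (a k) (c k)) atTop (𝓝 (T a' c')) := by
  let b := finBasis K A
  have key : ∀ (x : A) (y : B), T x y = ∑ i, b.coord i x * T (b i) y := by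
    intro x y
    conv_lhs => rw [← b.sum_repr x]
    rw [map_sum, LinearMap.sum_apply]
    refine Finset.sum_congr rfl fun i _ => ?_
    rw [map_smul, LinearMap.smul_apply, smul_eq_mul]
    rfl
  rw [key]
  refine (tendsto_finsetSum Finset.univ fun i _ => (ha (b.coord i)).mul (hc (T (b i)))).congr
    fun k => ?_
  rw [key]

variable {V : ℕ → Type*} [∀ n, AddCommGroup (V n)] [∀ n, Module K (V n)]
  [∀ n, FiniteDimensional K (V n)]
  {e : ∀ n, V 0 ⊗[K] V n ≃ₗ[K] V (n + 1)} {G : Type*} [Group G]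
  {ρ : ∀ n, Representation K G (V n)}

theorem wl_succ (n : ℕ) {a : ℕ → End K (V 0)} {a' : End K (V 0)} {c : ℕ → End K (V n)}
    {c' : End K (V n)} (ha : WL a a') (hc : WL c c') {t : ℕ → K} (ht : Tendsto t atTop (𝓝 0)) :
    WL (fun k => Rh e n (a k) + Lh e n (c k) + t k • (Rh e n (a k) * Lh e n (c k)))
      (Rh e n a' + Lh e n c') := by
  intro φ v
  obtain ⟨v, rfl⟩ := (e n).surjective v
  induction v using TensorProduct.induction_on with
  | zero =>
    simp only [map_zero]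
    exact tendsto_const_nhds
  | add v w hv hw =>
    simp only [map_add]
    exact hv.add hw
  | tmul x y =>
    let T : V 0 →ₗ[K] V n →ₗ[K] K := (TensorProduct.mk K (V 0) (V n)).compr₂ (φ ∘ₗ (e n).toLinearMap)
    have hT : ∀ u w, φ (e n (u ⊗ₜ w)) = T u w := fun u w => rfl
    have h1 : Tendsto (fun k => T (a k x) y) atTop (𝓝 (T (a' x) y)) := ha (T.flip y) x
    have h2 : Tendsto (fun k => T x (c k y)) atTop (𝓝 (T x (c' y))) := hc (T x) y
    have h3 : Tendsto (fun k => T (a k x) (c k y)) atTop (𝓝 (T (a' x) (c' y))) :=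
      tendsto_bilin T (fun ψ => ha ψ x) (fun ψ => hc ψ y)
    have h4 := (h1.add h2).add (ht.mul h3)
    rw [zero_mul, add_zero] at h4
    have h5 : φ ((Rh e n a' + Lh e n c') (e n (x ⊗ₜ y))) = T (a' x) y + T x (c' y) := by
      rw [LinearMap.add_apply, Rh_apply, Lh_apply, map_add, hT, hT]
    rw [h5]
    refine h4.congr fun k => ?_
    rw [LinearMap.add_apply, LinearMap.add_apply, LinearMap.smul_apply, Module.End.mul_apply,
      Lh_apply, Rh_apply, Rh_apply, map_add, map_add, map_smul, hT, hT, hT, smul_eq_mul]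

theorem wl_tower (h : Equi e ρ) {γ : ℕ → G} {t : ℕ → K} (ht0 : ∀ k, t k ≠ 0)
    (ht : Tendsto t atTop (𝓝 0)) {x : End K (V 0)}
    (hx : WL (fun k => (t k)⁻¹ • (ρ 0 (γ k) - 1)) x) (n : ℕ) :
    WL (fun k => (t k)⁻¹ • (ρ n (γ k) - 1)) (D e n x) := by
  induction n with
  | zero => exact hx
  | succ n ih =>
    have h1 := wl_succ (e := e) n hx ih ht
    rw [D_succ]
    have h2 : ∀ k, Rh e n ((t k)⁻¹ • (ρ 0 (γ k) - 1)) + Lh e n ((t k)⁻¹ • (ρ n (γ k) - 1)) +
        t k • (Rh e n ((t k)⁻¹ • (ρ 0 (γ k) - 1)) * Lh e n ((t k)⁻¹ • (ρ n (γ k) - 1))) =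
        (t k)⁻¹ • (ρ (n + 1) (γ k) - 1) := by
      intro k
      rw [rho_succ h]
      simp only [map_smul, map_sub, map_one, smul_mul_smul_comm, smul_smul]
      rw [← mul_assoc, mul_inv_cancel₀ (ht0 k), one_mul, ← smul_add, ← smul_add]
      congr 1
      simp only [sub_mul, mul_sub, mul_one, one_mul]
      abel
    intro φ v
    refine (h1 φ v).congr fun k => ?_
    beta_reduce
    rw [h2]

end limits

section padic

open Pool.Agent.N817.PL Pool.Agent.N817.PL.DD Pool.Agent.N817.PL.Nrm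

attribute [local instance] nring nalg

variable {p : ℕ} [hp : Fact p.Prime]

section

variable {R : Type*} [NormedRing R] [IsUltrametricDist R] [NormedAlgebra ℚ_[p] R]

theorem log_pow {x ℓ : R} (hx : ‖x‖ ≤ 1 / 4)
    (hℓ : Tendsto (fun k => Log.f p k x) atTop (𝓝 ℓ)) (m : ℕ) :
    Tendsto (fun k : ℕ => ((p : ℚ_[p])⁻¹) ^ k • ((1 + x) ^ (m * p ^ k) - 1)) atTop
      (𝓝 ((m : ℚ_[p]) • ℓ)) := by
  have hp0 : (0 : ℝ) < p := by exact_mod_cast hp.out.pos
  have hp1 : (1 : ℝ) < p := by exact_mod_cast hp.out.one_lt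
  have h3 : (p : ℚ_[p]) ≠ 0 := by exact_mod_cast hp.out.ne_zero
  set g : ℕ → R := fun k => ((p : ℚ_[p])⁻¹) ^ k • ((1 + x) ^ (m * p ^ k) - 1) with hg
  have h6 : Tendsto (fun k => (m : ℚ_[p]) • Log.f p k x) atTop (𝓝 ((m : ℚ_[p]) • ℓ)) :=
    hℓ.const_smul _
  have h7 : Tendsto (fun k => g k - (m : ℚ_[p]) • Log.f p k x) atTop (𝓝 0) := by
    rw [tendsto_zero_iff_norm_tendsto_zero]
    refine squeeze_zero (fun k => norm_nonneg _) (g := fun k => ((p : ℝ)⁻¹) ^ k) (fun k => ?_)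
      (tendsto_pow_atTop_nhds_zero_of_lt_one (by positivity) (inv_lt_one_of_one_lt₀ hp1))
    have h8 : (1 + x) ^ p ^ k = 1 + (p : ℚ_[p]) ^ k • Log.f p k x := by
      unfold Log.f
      rw [smul_smul, ← mul_pow, mul_inv_cancel₀ h3, one_pow, one_smul, add_sub_cancel]
    have h9 : ‖(p : ℚ_[p]) ^ k • Log.f p k x‖ ≤ ((p : ℝ)⁻¹) ^ k := by
      rw [norm_smul, norm_pow, Padic.norm_p]
      have := (Log.f_norm (p := p) hx k).trans hx
      have h10 : (0 : ℝ) ≤ ((p : ℝ)⁻¹) ^ k := by positivity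
      nlinarith
    have h10 : g k - (m : ℚ_[p]) • Log.f p k x = ((p : ℚ_[p])⁻¹) ^ k •
        ((1 + (p : ℚ_[p]) ^ k • Log.f p k x) ^ m - 1 -
          (m : ℚ_[p]) • ((p : ℚ_[p]) ^ k • Log.f p k x)) := by
      rw [hg]
      simp only
      rw [mul_comm m, pow_mul, h8, smul_sub (((p : ℚ_[p])⁻¹) ^ k) _ ((m : ℚ_[p]) • _), smul_comm _
        (m : ℚ_[p]), smul_smul (((p : ℚ_[p])⁻¹) ^ k), ← mul_pow, inv_mul_cancel₀ h3, one_pow,
        one_smul]
    rw [h10, norm_smul, norm_pow, norm_inv, Padic.norm_p, inv_inv]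
    have h11 : ((p : ℝ)⁻¹) ^ k ≤ 1 := pow_le_one₀ (by positivity) (inv_le_one_of_one_le₀ hp1.le)
    have h12 := Log.pow_quad (p := p) (h9.trans h11) m
    calc (p : ℝ) ^ k * _ ≤ (p : ℝ) ^ k * ((((p : ℝ)⁻¹) ^ k) ^ 2) := by
          refine mul_le_mul_of_nonneg_left (h12.trans ?_) (by positivity)
          exact pow_le_pow_left₀ (norm_nonneg _) h9 2
      _ = ((p : ℝ) ^ k * ((p : ℝ)⁻¹) ^ k) * ((p : ℝ)⁻¹) ^ k := by ring
      _ = ((p : ℝ)⁻¹) ^ k := by
          rw [← mul_pow, mul_inv_cancel₀ hp0.ne', one_pow, one_mul]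
  have h8 := h7.add h6
  rw [zero_add] at h8
  refine h8.congr fun k => ?_
  abel

end

end padic

end Pool.Agent.N536.SL
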