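import Pool.Agent.N536.SL.Che
import Pool.Agent.N536.SL.Cnt

/-!
# Stable subspaces of the tensor powers
-/

set_option autoImplicit false
set_option linter.unusedSectionVars false

open Module TensorProduct

namespace Pool.Agent.N536.SL

open Pool.Agent.Y114.GF

section res

variable {K : Type*} [Field K] {G : Type*} [Group G] {W : Type*} [AddCommGroup W] [Module K W]

/-- the restriction of a representation to a stable subspace -/
def resR (r : Representation K G W) (T : Submodule K W) (hT : St r T) : Representation K G T where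
  toFun g := (r g).restrict (hT g)
  map_one' := by
    ext x
    change r 1 (x : W) = x
    rw [map_one, Module.End.one_apply]
  map_mul' g h := by
    ext x
    change r (g * h) (x : W) = r g (r h x)
    rw [map_mul, Module.End.mul_apply]

variable {r : Representation K G W} {T : Submodule K W} {hT : St r T}

theorem resR_coe (g : G) (x : T) : ((resR r T hT g x : T) : W) = r g x := rfl

theorem st_comap {B : Submodule K W} (hB : St r B) : St (resR r T hT) (B.comap T.subtype) :=
  fun g x hx => hB g x hx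

theorem st_map {C : Submodule K T} (hC : St (resR r T hT) C) : St r (C.map T.subtype) := by
  rintro g _ ⟨x, hx, rfl⟩
  exact ⟨resR r T hT g x, hC g x hx, rfl⟩

theorem st_sup {B C : Submodule K W} (hB : St r B) (hC : St r C) : St r (B ⊔ C) := by
  rw [← st_iff] at hB hC ⊢
  exact hB.sup r hC

theorem st_inf {B C : Submodule K W} (hB : St r B) (hC : St r C) : St r (B ⊓ C) := by
  rw [← st_iff] at hB hC ⊢
  exact hB.inf r hC

theorem ssq_comap {B A : Submodule K W} (hB : St r B) (hBA : B ≤ A) (h : SSQ r B A) :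
    SSQ (resR r T hT) (B.comap T.subtype) (A.comap T.subtype) := by
  intro C hC hBC hCA
  obtain ⟨D, hD, h1, h2⟩ := h (C.map T.subtype ⊔ B) (st_sup (st_map hC) hB) le_sup_right
    (sup_le (by
      rintro _ ⟨x, hx, rfl⟩
      exact hCA hx) hBA)
  have hBD : B ≤ D := by
    rw [← h1]
    exact inf_le_right
  refine ⟨D.comap T.subtype, st_comap hD, ?_, ?_⟩
  · ext x
    constructor
    · rintro ⟨hx, hx'⟩
      have h3 : (x : W) ∈ (C.map T.subtype ⊔ B) ⊓ D :=
        ⟨Submodule.mem_sup_left ⟨x, hx, rfl⟩, hx'⟩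
      rw [h1] at h3
      exact h3
    · intro hx
      exact ⟨hBC hx, hBD hx⟩
  · ext x
    constructor
    · intro hx
      obtain ⟨c, hc, d, hd, rfl⟩ := Submodule.mem_sup.1 hx
      refine Submodule.add_mem _ (hCA hc) ?_
      have h3 : (d : W) ∈ (C.map T.subtype ⊔ B) ⊔ D := Submodule.mem_sup_right hd
      rw [h2] at h3
      exact h3
    · intro hx
      have h3 : (x : W) ∈ (C.map T.subtype ⊔ B) ⊔ D := by
        rw [h2]
        exact hx
      obtain ⟨y, hy, d, hd, h4⟩ := Submodule.mem_sup.1 h3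
      obtain ⟨_, ⟨c, hc, rfl⟩, b, hb, rfl⟩ := Submodule.mem_sup.1 hy
      have h5 : x = c + (x - c) := by abel
      rw [h5]
      refine Submodule.add_mem_sup hc ?_
      have h6 : ((x - c : T) : W) = b + d := by
        rw [Submodule.coe_sub, ← h4]
        change (c : W) + b + d - c = b + d
        abel
      change ((x - c : T) : W) ∈ D
      rw [h6]
      exact D.add_mem (hBD hb) hd

theorem ssq_of_semi_res (h : Semi (resR r T hT) (⊤ : Subgroup G)) : SSQ r ⊥ T := by
  intro C hC _ hCT
  obtain ⟨D, hD, hc⟩ := h (C.comap T.subtype) ((st_iff _ _).2 (st_comap hC))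
  refine ⟨D.map T.subtype, st_map ((st_iff _ _).1 hD), ?_, ?_⟩
  · rw [Submodule.eq_bot_iff]
    rintro _ ⟨hx, ⟨y, hy, rfl⟩⟩
    have h1 : y ∈ C.comap T.subtype ⊓ D := ⟨hx, hy⟩
    rw [hc.inf_eq_bot, Submodule.mem_bot] at h1
    rw [h1, map_zero]
  · apply le_antisymm
    · refine sup_le hCT ?_
      rintro _ ⟨y, hy, rfl⟩
      exact y.2
    · intro x hx
      have h1 : (⟨x, hx⟩ : T) ∈ C.comap T.subtype ⊔ D := by rw [hc.sup_eq_top]; trivial
      obtain ⟨c, hc', d, hd, h2⟩ := Submodule.mem_sup.1 h1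
      have h3 : x = (c : W) + d := congrArg Subtype.val h2.symm
      rw [h3]
      exact Submodule.add_mem_sup hc' ⟨d, hd, rfl⟩

end res

section tower

variable {K : Type*} [Field K] {V : ℕ → Type*} [∀ n, AddCommGroup (V n)]
  [∀ n, Module K (V n)] (κ : ∀ n, V 0 ⊗[K] V n ≃ₗ[K] V (n + 1)) (W0 : Submodule K (V 0))

/-- the tensor powers of a subspace -/
noncomputable def TT : ∀ n, Submodule K (V n)
  | 0 => W0
  | n + 1 => LinearMap.range ((κ n).toLinearMap ∘ₗ TensorProduct.map W0.subtype (TT n).subtype)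

theorem TT_succ (n : ℕ) : TT κ W0 (n + 1) =
    LinearMap.range ((κ n).toLinearMap ∘ₗ TensorProduct.map W0.subtype (TT κ W0 n).subtype) := rfl

theorem TT_inj (n : ℕ) : Function.Injective
    ((κ n).toLinearMap ∘ₗ TensorProduct.map W0.subtype (TT κ W0 n).subtype) := by
  rw [LinearMap.coe_comp]
  exact (κ n).injective.comp (TensorProduct.map_injective_of_flat_flat _ _
    W0.injective_subtype (TT κ W0 n).injective_subtype)

/-- the Künneth isomorphism for the tensor powers of a subspace -/
noncomputable def TE (n : ℕ) : (TT κ W0 0) ⊗[K] (TT κ W0 n) ≃ₗ[K] (TT κ W0 (n + 1)) :=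
  LinearEquiv.ofInjective
    ((κ n).toLinearMap ∘ₗ TensorProduct.map W0.subtype (TT κ W0 n).subtype) (TT_inj κ W0 n)

theorem TE_coe (n : ℕ) (a : TT κ W0 0) (b : TT κ W0 n) :
    ((TE κ W0 n (a ⊗ₜ b) : TT κ W0 (n + 1)) : V (n + 1)) = κ n ((a : V 0) ⊗ₜ (b : V n)) := rfl

variable {κ W0} {G : Type*} [Group G] {ρ : ∀ n, Representation K G (V n)}

theorem TT_st (h : Equi κ ρ) (h0 : St (ρ 0) W0) (n : ℕ) : St (ρ n) (TT κ W0 n) := by
  induction n with
  | zero => exact h0
  | succ n ih =>
    rintro g _ ⟨z, rfl⟩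
    induction z using TensorProduct.induction_on with
    | zero => rw [map_zero, map_zero]; exact Submodule.zero_mem _
    | tmul a b =>
      refine ⟨(⟨ρ 0 g a, h0 g a a.2⟩ : W0) ⊗ₜ (⟨ρ n g b, ih g b b.2⟩ : TT κ W0 n), ?_⟩
      exact (h n g a b).symm
    | add x y hx hy => rw [map_add, map_add]; exact Submodule.add_mem _ hx hy

theorem TT_equi (h : Equi κ ρ) (h0 : St (ρ 0) W0) :
    Equi (TE κ W0) (fun n => resR (ρ n) (TT κ W0 n) (TT_st h h0 n)) := by
  intro n g a b
  apply Subtype.ext
  rw [resR_coe, TE_coe, TE_coe, h]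
  rfl

theorem TT_le (gr : ∀ n, ℕ → Submodule K (V n)) (m : ℕ)
    (hκ : ∀ n i j x y, x ∈ gr 0 i → y ∈ gr n j → κ n (x ⊗ₜ y) ∈ gr (n + 1) (i + j))
    (h0 : W0 ≤ gr 0 m) (n : ℕ) : TT κ W0 n ≤ gr n (m * (n + 1)) := by
  induction n with
  | zero =>
    rw [zero_add, mul_one]
    exact h0
  | succ n ih =>
    rintro _ ⟨z, rfl⟩
    have hm : m * (n + 1 + 1) = m + m * (n + 1) := by ring
    induction z using TensorProduct.induction_on with
    | zero => rw [map_zero]; exact Submodule.zero_mem _
    | tmul a b =>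
      rw [hm]
      exact hκ n m (m * (n + 1)) a b (h0 a.2) (ih b.2)
    | add x y hx hy => rw [map_add]; exact Submodule.add_mem _ hx hy

end tower

end Pool.Agent.N536.SL
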