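import Pool.Agent.N536.SL.Defs
import Pool.Agent.N536.SL.Res

/-!
# The laws of the semisimple subquotients and of the Loewy length
-/

set_option autoImplicit false
set_option linter.unusedSectionVars false

open Module TensorProduct AlgebraicGeometry Filter Topology

namespace Pool.Agent.N536.SL

open Pool.Agent.N536.FS (SVar powK)
open Pool.Agent.Y114.GF

universe u v x

variable {F : Type u} [Field F] {p : ℕ} [hp : Fact p.Prime] {G : Type x} [Group G]
  [TopologicalSpace G] {P : SVar.{u} F → Prop} {H : SVar.{u} F → GCoh.{v} ℚ_[p] G}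

theorem pow_mem' (hH : IsGTheory P H) {X : SVar.{u} F} (hX : P X) : ∀ n, P (vpow X n)
  | 0 => hX
  | n + 1 => hH.prod X (vpow X n) hX (pow_mem' hH hX n)

theorem exists_tower (hH : IsGTheory P H) {X : SVar.{u} F} (hX : P X) :
    ∃ κ : ∀ n, (H (vpow X 0)).V ⊗[ℚ_[p]] (H (vpow X n)).V ≃ₗ[ℚ_[p]] (H (vpow X (n + 1))).V,
      Equi κ (fun n => (H (vpow X n)).ρ) ∧
      ∀ n i j x y, x ∈ (H (vpow X 0)).gr i → y ∈ (H (vpow X n)).gr j →
        κ n (x ⊗ₜ y) ∈ (H (vpow X (n + 1))).gr (i + j) := by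
  have h1 : ∀ n, ∃ κ : (H (vpow X 0)).V ⊗[ℚ_[p]] (H (vpow X n)).V ≃ₗ[ℚ_[p]]
      (H (vpow X (n + 1))).V, GradedK (H (vpow X 0)) (H (vpow X n)) (H (vpow X (n + 1))) κ ∧
        EquivariantK (H (vpow X 0)) (H (vpow X n)) (H (vpow X (n + 1))) κ :=
    fun n => hH.kunneth X (vpow X n) hX (pow_mem' hH hX n)
  choose κ hκ using h1
  exact ⟨κ, fun n g a b => (hκ n).2 g a b, fun n i j x y => (hκ n).1 i j x y⟩

theorem betti_pow (hH : IsGTheory P H) {X : SVar.{u} F} (hX : P X) (n : ℕ) :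
    (H (vpow X n)).betti = (H X).betti ^ (n + 1) := by
  obtain ⟨κ, -, -⟩ := exists_tower hH hX
  induction n with
  | zero =>
    rw [zero_add, pow_one]
    rfl
  | succ n ih =>
    have h1 : (H (vpow X (n + 1))).betti = (H X).betti * (H (vpow X n)).betti := by
      unfold GCoh.betti
      rw [← (κ n).finrank_eq, finrank_tensorProduct]
      rfl
    rw [h1, ih]
    ring

theorem lt_of_pow {W : Type*} [AddCommGroup W] [Module ℚ_[p] W] {N : End ℚ_[p] W} {k l : ℕ}
    (hk : N ^ k ≠ 0) (hl : N ^ l = 0) : k + 1 ≤ l := by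
  by_contra hcon
  apply hk
  obtain ⟨j, rfl⟩ : ∃ j, k = l + j := ⟨k - l, by omega⟩
  rw [pow_add, hl, zero_mul]

variable [IsTopologicalGroup G] [CompactSpace G]

/-- **The law of the semisimple subquotients.** -/
theorem law1 (hH : IsGTheory P H) {X : SVar.{u} F} (hX : P X) :
    (∀ n m, (H (vpow X n)).Semisimple m) ∨
    (2 ≤ (H X).betti ∧ ∀ n : ℕ, (∀ B A, (H (vpow X n)).IsSemisimpleSubquot B A →
        2 * ((n : ℝ) + 2) * ((H (vpow X n)).dimQuot B A) ^ 2 ≤
          (H X).betti * ((H (vpow X n)).betti : ℝ) ^ 2) ∧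
      (H (vpow X n)).LoewyGE ⊤ (n + 2)) := by
  obtain ⟨κ, hκ, -⟩ := exists_tower hH hX
  have hcoh := fun n => hH.coh _ (pow_mem' hH hX n)
  have hfin : ∀ n, FiniteDimensional ℚ_[p] (H (vpow X n)).V := fun n => (hcoh n).finite
  have hcont : ∀ n, Cont (H (vpow X n)).ρ := fun n => (hcoh n).continuous
  by_cases hs : Semi (H (vpow X 0)).ρ (⊤ : Subgroup G)
  · left
    intro n m
    have h1 := semi_pow hκ hcont hs n
    refine ssq_of_semi h1 ?_ ((hcoh n).stable m) bot_le
    intro g w hw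
    rw [Submodule.mem_bot] at hw ⊢
    rw [hw, map_zero]
  · right
    obtain ⟨J, hJ⟩ := exists_nil_of_not_semi hκ (hcont 0) hs
    obtain ⟨x, hx, hx0⟩ := (Submodule.ne_bot_iff J).1 hJ.ne_bot
    have hnil := hJ.nil x hx
    refine ⟨two_le_finrank (V := fun n => (H (vpow X n)).V) hx0 hnil, fun n => ⟨?_, ?_⟩⟩
    · rintro B A ⟨hB, hA, hBA, hss⟩
      unfold GCoh.dimQuot
      have hk := kill hκ hJ hA hB hBA hss x hx
      have h1 := dim_le _ hk
      have h2 := ker_bound (V := fun n => (H (vpow X n)).V) κ hx0 hnil n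
      have h3 : finrank ℚ_[p] B ≤ finrank ℚ_[p] A := Submodule.finrank_mono hBA
      have h4 : (0 : ℝ) ≤ (finrank ℚ_[p] A : ℝ) - finrank ℚ_[p] B := by
        rw [sub_nonneg]
        exact_mod_cast h3
      have h5 : (finrank ℚ_[p] A : ℝ) - finrank ℚ_[p] B ≤
          (finrank ℚ_[p] (LinearMap.ker (D (V := fun n => (H (vpow X n)).V) κ n x)) : ℝ) := by
        rw [sub_le_iff_le_add']
        exact_mod_cast h1
      have h6 := pow_le_pow_left₀ h4 h5 2
      have h7 : (H (vpow X n)).betti = (H X).betti ^ (n + 1) := betti_pow hH hX n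
      rw [h7]
      push_cast
      refine le_trans (mul_le_mul_of_nonneg_left h6 (by positivity)) h2
    · rintro l ⟨W, hW0, hWl, hst, hW⟩
      have h1 := chain_pow hκ hJ W hW0 hWl (fun i hi => (hW i hi).1) hst
        (fun i hi => (hW i hi).2) hx
      have h2 := lt_of_pow (D_pow_ne_zero hx0 hnil n) h1
      omega

/-- **The law of the Loewy length.** -/
theorem law2 (hH : IsGTheory P H) {X : SVar.{u} F} (hX : P X) {m : ℕ}
    (hm : ¬ (H X).Semisimple m) (n : ℕ) :
    (H (vpow X n)).LoewyGE ((H (vpow X n)).gr (m * (n + 1))) (n + 2) := by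
  intro l hl
  obtain ⟨κ, hκ, hdeg⟩ := exists_tower hH hX
  have hcoh := fun n => hH.coh _ (pow_mem' hH hX n)
  have hfin : ∀ n, FiniteDimensional ℚ_[p] (H (vpow X n)).V := fun n => (hcoh n).finite
  have hcont : ∀ n, Cont (H (vpow X n)).ρ := fun n => (hcoh n).continuous
  set W0 : Submodule ℚ_[p] (H (vpow X 0)).V := (H (vpow X 0)).gr m with hW0def
  have hst0 : St (H (vpow X 0)).ρ W0 := (hcoh 0).stable m
  have hTst := TT_st hκ hst0
  have hequi := TT_equi hκ hst0
  have hle := TT_le (κ := κ) (W0 := W0) (fun n => (H (vpow X n)).gr) m hdeg le_rfl n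
  have hcont0 : Cont (resR (H (vpow X 0)).ρ (TT (V := fun n => (H (vpow X n)).V) κ W0 0)
      (hTst 0)) := by
    intro φ v
    obtain ⟨φ', hφ'⟩ := φ.exists_extend
    refine (hcont 0 φ' v).congr fun g => ?_
    rw [← hφ']
    rfl
  have hns : ¬ Semi (resR (H (vpow X 0)).ρ (TT (V := fun n => (H (vpow X n)).V) κ W0 0) (hTst 0))
      (⊤ : Subgroup G) := fun h => hm (ssq_of_semi_res h)
  obtain ⟨J, hJ⟩ := exists_nil_of_not_semi hequi hcont0 hns
  obtain ⟨x, hx, hx0⟩ := (Submodule.ne_bot_iff J).1 hJ.ne_bot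
  obtain ⟨W, hW0, hWl, hst, hW⟩ := hl
  have h1 := chain_pow hequi hJ (n := n) (m := l)
    (fun i => (W i).comap (TT (V := fun n => (H (vpow X n)).V) κ W0 n).subtype)
    (by
      change (W 0).comap (TT (V := fun n => (H (vpow X n)).V) κ W0 n).subtype = ⊥
      rw [hW0]
      exact Submodule.ker_subtype _)
    (by
      change (W l).comap (TT (V := fun n => (H (vpow X n)).V) κ W0 n).subtype = ⊤
      rw [hWl, eq_top_iff]
      intro y _
      exact hle y.2)
    (fun i hi => Submodule.comap_mono (hW i hi).1)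
    (fun i hi => st_comap (hst i hi))
    (fun i hi => ssq_comap (hst i hi.le) (hW i hi).1 (hW i hi).2) hx
  have h2 := lt_of_pow (D_pow_ne_zero hx0 (hJ.nil x hx) n) h1
  omega

theorem law1' (hH : IsGTheory P H) {X : SVar.{u} F} (hX : P X) :
    (∀ n m, (H (vpow X n)).Semisimple m) ∨
    (2 ≤ (H X).betti ∧ PowerLaw H X) := by
  rcases law1 hH hX with h | ⟨h1, h2⟩
  · exact Or.inl h
  · refine Or.inr ⟨h1, fun n => ⟨fun B A hBA => ?_, (h2 n).2⟩⟩
    have h3 := (h2 n).1 B A hBA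
    have hd : 0 ≤ (H (vpow X n)).dimQuot B A := by
      have _ := (hH.coh _ (pow_mem' hH hX n)).finite
      unfold GCoh.dimQuot
      rw [sub_nonneg]
      exact_mod_cast Submodule.finrank_mono hBA.2.2.1
    have h4 : (0 : ℝ) < 2 * n + 4 := by positivity
    rw [← pow_le_pow_iff_left₀ hd (by positivity) two_ne_zero, mul_pow,
      Real.sq_sqrt (by positivity), div_mul_eq_mul_div, le_div_iff₀ h4]
    calc _ = 2 * ((n : ℝ) + 2) * ((H (vpow X n)).dimQuot B A) ^ 2 := by ring
      _ ≤ _ := h3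

/-- If there are large semisimple subquotients, the cohomology is semisimple. -/
theorem law3 (hH : IsGTheory P H) (f : ℕ → ℝ)
    (hf : Tendsto (fun y : ℕ => f y * √(Real.log y)) atTop atTop)
    (h : LargeSubquots P H f) : AllSemisimple P H := by
  intro X hX
  rcases law1 hH hX with h0 | ⟨hb2, hrate⟩
  · exact h0 0
  exfalso
  set b : ℕ := (H X).betti with hb
  have h1 : Tendsto (fun n : ℕ => b ^ (n + 1)) atTop atTop :=
    (_root_.tendsto_pow_atTop_atTop_of_one_lt (by omega : 1 < b)).comp (tendsto_add_atTop_nat 1)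
  have h2 := (hf.comp h1).eventually_gt_atTop (√((b : ℝ) * Real.log b))
  obtain ⟨n, hn⟩ := h2.exists
  simp only [Function.comp_apply] at hn
  have hlogb : 0 < Real.log b := Real.log_pos (by exact_mod_cast (by omega : 1 < b))
  have hbR : (0 : ℝ) < b := by exact_mod_cast (by omega : 0 < b)
  obtain ⟨B', A, hBA, h4⟩ := h (vpow X n) (pow_mem' hH hX n)
  have h3 := (hrate n).1 B' A hBA
  have hbn : (H (vpow X n)).betti = b ^ (n + 1) := betti_pow hH hX n
  rw [hbn] at h3 h4
  set r : ℝ := (H (vpow X n)).dimQuot B' A with hr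
  set B : ℝ := (b : ℝ) ^ (n + 1) with hB
  have hBpos : 0 < B := by positivity
  have hcast : ((b ^ (n + 1) : ℕ) : ℝ) = B := by push_cast; rfl
  rw [hcast] at h3 h4
  have hlog : Real.log ((b ^ (n + 1) : ℕ) : ℝ) = (n + 1) * Real.log b := by
    push_cast
    rw [Real.log_pow]
    push_cast
    ring
  rw [hlog] at hn
  have hs1 : 0 ≤ √((b : ℝ) * Real.log b) := Real.sqrt_nonneg _
  have hs2 : 0 ≤ √(((n : ℝ) + 1) * Real.log b) := Real.sqrt_nonneg _
  have hfpos : 0 < f (b ^ (n + 1)) := by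
    by_contra h6
    push Not at h6
    have h7 : f (b ^ (n + 1)) * √(((n : ℝ) + 1) * Real.log b) ≤ 0 :=
      mul_nonpos_of_nonpos_of_nonneg h6 hs2
    linarith
  have h8 : (b : ℝ) * Real.log b < f (b ^ (n + 1)) ^ 2 * (((n : ℝ) + 1) * Real.log b) := by
    have h9 := pow_lt_pow_left₀ hn hs1 (n := 2) (by norm_num)
    rw [Real.sq_sqrt (by positivity), mul_pow, Real.sq_sqrt (by positivity)] at h9
    exact h9
  have h10 : (f (b ^ (n + 1)) * B) ^ 2 ≤ r ^ 2 := pow_le_pow_left₀ (by positivity) h4 2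
  have h11 : 2 * ((n : ℝ) + 2) * (f (b ^ (n + 1)) * B) ^ 2 ≤ b * B ^ 2 :=
    (mul_le_mul_of_nonneg_left h10 (by positivity)).trans h3
  have h12 : 2 * ((n : ℝ) + 2) * f (b ^ (n + 1)) ^ 2 ≤ b := by
    have h13 : 2 * ((n : ℝ) + 2) * f (b ^ (n + 1)) ^ 2 * B ^ 2 ≤ b * B ^ 2 := by
      refine le_trans (le_of_eq ?_) h11
      ring
    exact le_of_mul_le_mul_right h13 (by positivity)
  have h14 : (b : ℝ) < f (b ^ (n + 1)) ^ 2 * ((n : ℝ) + 1) := by
    have h15 : (b : ℝ) * Real.log b < f (b ^ (n + 1)) ^ 2 * ((n : ℝ) + 1) * Real.log b := by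
      linarith
    exact lt_of_mul_lt_mul_right h15 hlogb.le
  have h16 : 0 ≤ f (b ^ (n + 1)) ^ 2 := sq_nonneg _
  have h17 : 0 ≤ f (b ^ (n + 1)) ^ 2 * (n : ℝ) := by positivity
  nlinarith

/-- If the Loewy lengths grow slowly, the cohomology is semisimple. -/
theorem law4 (hH : IsGTheory P H) (g : ℝ → ℝ) (hg : Tendsto (fun x => g x / x) atTop (𝓝 0))
    (h : LoewyBound P H g) : AllSemisimple P H := by
  intro X hX m
  by_contra hm
  rcases law1 hH hX with h0 | ⟨hb2, -⟩
  · exact hm (h0 0 m)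
  set b : ℕ := (H X).betti with hb
  have hlogb : 0 < Real.log b := Real.log_pos (by exact_mod_cast (by omega : 1 < b))
  set c : ℝ := m + Real.log b with hc
  have hcpos : 0 < c := by positivity
  have key : ∀ n : ℕ, (n : ℝ) + 2 ≤ g (((n : ℝ) + 1) * c) := by
    intro n
    obtain ⟨l, hl1, hl2⟩ := h (vpow X n) (pow_mem' hH hX n) (m * (n + 1))
    have h1 := law2 hH hX hm n l hl2
    have hbn : (H (vpow X n)).betti = b ^ (n + 1) := betti_pow hH hX n
    have h2 : ((m * (n + 1) : ℕ) : ℝ) + Real.log ((H (vpow X n)).betti : ℝ) =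
        ((n : ℝ) + 1) * c := by
      rw [hbn]
      push_cast
      rw [Real.log_pow]
      push_cast
      rw [hc]
      ring
    rw [h2] at hl1
    have h3 : ((n + 2 : ℕ) : ℝ) ≤ l := by exact_mod_cast h1
    push_cast at h3
    linarith
  have h1 : Tendsto (fun n : ℕ => ((n : ℝ) + 1) * c) atTop atTop :=
    (tendsto_atTop_add_const_right _ _ tendsto_natCast_atTop_atTop).atTop_mul_const hcpos
  have h2 := (hg.comp h1).eventually_lt_const (show (0 : ℝ) < 1 / c by positivity)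
  obtain ⟨n, hn⟩ := h2.exists
  simp only [Function.comp_apply] at hn
  have h3 := key n
  have h4 : (0 : ℝ) < ((n : ℝ) + 1) * c := by positivity
  rw [div_lt_div_iff₀ h4 hcpos, one_mul] at hn
  nlinarith

end Pool.Agent.N536.SL
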