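import Pool.Agent.N536.SL.Lim

/-!
# Compact groups of automorphisms of vector spaces over the field of p-adic numbers
-/

set_option autoImplicit false
set_option linter.unusedSectionVars false

open Module TensorProduct Filter Topology

namespace Pool.Agent.N536.SL

open Pool.Agent.N817.PL Pool.Agent.N817.PL.DD Pool.Agent.N817.PL.Nrm

attribute [local instance] nring nalg

variable {p : ℕ} [hp : Fact p.Prime] {G : Type*} [Group G]

/-- The matrix coefficients are continuous. -/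
def Cont [TopologicalSpace G] {W : Type*} [AddCommGroup W] [Module ℚ_[p] W]
    (r : Representation ℚ_[p] G W) : Prop :=
  ∀ (φ : Dual ℚ_[p] W) (v : W), Continuous fun g => φ (r g v)

theorem ultraM (n : ℕ) : IsUltrametricDist (Mat n ℚ_[p]) := ultraMat

theorem completeM (n : ℕ) : @CompleteSpace (Mat n ℚ_[p]) PseudoMetricSpace.toUniformSpace :=
  Nrm.complete

section one

variable {W : Type*} [AddCommGroup W] [Module ℚ_[p] W] [FiniteDimensional ℚ_[p] W]
  (r : Representation ℚ_[p] G W)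

/-- the matrix of an operator -/
noncomputable def EM (W : Type*) [AddCommGroup W] [Module ℚ_[p] W] [FiniteDimensional ℚ_[p] W] :
    End ℚ_[p] W ≃ₐ[ℚ_[p]] Mat (finrank ℚ_[p] W) ℚ_[p] :=
  LinearMap.toMatrixAlgEquiv (finBasis ℚ_[p] W)

/-- the subgroup of the elements near to `1` -/
noncomputable def U0 : Subgroup G where
  carrier := {g | ‖EM W (r g) - 1‖ < 1 / 4}
  mul_mem' := by
    intro g h hg hh
    have _ := ultraM (p := p) (finrank ℚ_[p] W)
    rw [Set.mem_ofPred_eq] at hg hh ⊢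
    have h1 : EM W (r (g * h)) - 1 = (EM W (r g) - 1) * (EM W (r h) - 1) +
        ((EM W (r g) - 1) + (EM W (r h) - 1)) := by
      rw [map_mul, map_mul]
      simp only [sub_mul, mul_sub, mul_one, one_mul]
      abel
    rw [h1]
    refine (IsUltrametricDist.norm_add_le_max _ _).trans_lt (max_lt ?_
      ((IsUltrametricDist.norm_add_le_max _ _).trans_lt (max_lt hg hh)))
    refine (norm_mul_le _ _).trans_lt ?_
    have h2 := norm_nonneg (EM W (r g) - 1)
    have h3 := norm_nonneg (EM W (r h) - 1)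
    nlinarith
  one_mem' := by
    rw [Set.mem_ofPred_eq, map_one, map_one, sub_self, norm_zero]
    norm_num
  inv_mem' := by
    intro g hg
    have _ := ultraM (p := p) (finrank ℚ_[p] W)
    rw [Set.mem_ofPred_eq] at hg ⊢
    have h1 : EM W (r g⁻¹) - 1 = -((EM W (r g) - 1) + (EM W (r g) - 1) * (EM W (r g⁻¹) - 1)) := by
      have h2 : EM W (r g) * EM W (r g⁻¹) = 1 := by
        rw [← map_mul, ← map_mul, mul_inv_cancel, map_one, map_one]
      simp only [sub_mul, mul_sub, mul_one, one_mul, h2]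
      abel
    set s := ‖EM W (r g) - 1‖ with hs
    set t := ‖EM W (r g⁻¹) - 1‖ with ht
    have h3 : t ≤ max s (s * t) := by
      rw [ht]
      conv_lhs => rw [h1, norm_neg]
      exact (IsUltrametricDist.norm_add_le_max _ _).trans (max_le_max le_rfl (norm_mul_le _ _))
    have h4 : 0 ≤ s := norm_nonneg _
    have h5 : 0 ≤ t := norm_nonneg _
    rcases le_max_iff.1 h3 with h6 | h6
    · linarith
    · nlinarith

theorem mem_U0 {g : G} : g ∈ U0 r ↔ ‖EM W (r g) - 1‖ < 1 / 4 := Iff.rfl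

theorem continuous_EM [TopologicalSpace G] (hr : Cont r) : Continuous fun g => EM W (r g) := by
  refine continuous_pi fun i => continuous_pi fun j => ?_
  have h1 : ∀ g, EM W (r g) i j = (finBasis ℚ_[p] W).coord i (r g (finBasis ℚ_[p] W j)) := by
    intro g
    change LinearMap.toMatrixAlgEquiv (finBasis ℚ_[p] W) (r g) i j = _
    rw [LinearMap.toMatrixAlgEquiv_apply]
    rfl
  simp only [h1]
  exact hr _ _

theorem U0_finiteIndex [TopologicalSpace G] [IsTopologicalGroup G] [CompactSpace G]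
    (hr : Cont r) : (U0 r).FiniteIndex := by
  have h1 : IsOpen ((U0 r : Subgroup G) : Set G) :=
    isOpen_lt (((continuous_EM r hr).sub continuous_const).norm) continuous_const
  have : Finite (G ⧸ U0 r) := Subgroup.quotient_finite_of_isOpen _ h1
  exact Subgroup.finiteIndex_of_finite_quotient

theorem wl_of_tendsto {a : ℕ → Mat (finrank ℚ_[p] W) ℚ_[p]} {x : Mat (finrank ℚ_[p] W) ℚ_[p]}
    (h : Tendsto a atTop (𝓝 x)) : WL (fun k => (EM W).symm (a k)) ((EM W).symm x) := by
  intro φ v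
  have h0 : ∀ i j, Tendsto (fun k => a k i j) atTop (𝓝 (x i j)) := by
    intro i j
    have h2 : Continuous fun A : Mat (finrank ℚ_[p] W) ℚ_[p] => A i j :=
      continuous_id.matrix_elem i j
    exact (h2.tendsto x).comp h
  have h1 : ∀ M : Mat (finrank ℚ_[p] W) ℚ_[p], φ ((EM W).symm M v) = ∑ i, (∑ j, M i j *
      (finBasis ℚ_[p] W).repr v j) * φ (finBasis ℚ_[p] W i) := by
    intro M
    change φ (Matrix.toLinAlgEquiv (finBasis ℚ_[p] W) M v) = _
    rw [Matrix.toLinAlgEquiv_apply, map_sum]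
    refine Finset.sum_congr rfl fun i _ => ?_
    rw [map_smul, smul_eq_mul]
    rfl
  simp only [h1]
  exact tendsto_finsetSum _ fun i _ => (tendsto_finsetSum _ fun j _ =>
    (h0 i j).mul_const _).mul_const _

end one

section main

variable {V : ℕ → Type*} [∀ n, AddCommGroup (V n)]
  [∀ n, Module ℚ_[p] (V n)] [∀ n, FiniteDimensional ℚ_[p] (V n)]
  {e : ∀ n, V 0 ⊗[ℚ_[p]] V n ≃ₗ[ℚ_[p]] V (n + 1)} {ρ : ∀ n, Representation ℚ_[p] G (V n)}

/-- The logarithms of the elements near to `1` are in the Lie algebra. -/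
theorem log_mem_aa (h : Equi e ρ) {γ : G} (hγ : γ ∈ U0 (ρ 0)) {ℓ : Mat (finrank ℚ_[p] (V 0)) ℚ_[p]}
    (hℓ : Tendsto (fun k => Log.f p k (EM (V 0) (ρ 0 γ) - 1)) atTop (𝓝 ℓ)) :
    (EM (V 0)).symm ℓ ∈ aa e ρ := by
  have _ := ultraM (p := p) (finrank ℚ_[p] (V 0))
  have hp1 : (1 : ℝ) < p := by exact_mod_cast hp.out.one_lt
  have hp0 : (p : ℚ_[p]) ≠ 0 := by exact_mod_cast hp.out.ne_zero
  intro n W hW w hw
  obtain ⟨U, -, hF, hU⟩ := hW
  obtain ⟨m, hm, -, hmU⟩ := Subgroup.exists_pow_mem_of_index_ne_zero hF.index_ne_zero γ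
  have hx : ‖EM (V 0) (ρ 0 γ) - 1‖ ≤ 1 / 4 := le_of_lt hγ
  have h1 := log_pow (p := p) hx hℓ m
  have h2 := wl_of_tendsto h1
  have ht : Tendsto (fun k : ℕ => (p : ℚ_[p]) ^ k) atTop (𝓝 0) := by
    apply tendsto_pow_atTop_nhds_zero_of_norm_lt_one
    rw [Padic.norm_p]
    exact inv_lt_one_of_one_lt₀ hp1
  have h3 : WL (fun k : ℕ => ((p : ℚ_[p]) ^ k)⁻¹ • (ρ 0 (γ ^ (m * p ^ k)) - 1))
      ((m : ℚ_[p]) • (EM (V 0)).symm ℓ) := by
    have h4 : ∀ k : ℕ, (EM (V 0)).symm (((p : ℚ_[p])⁻¹) ^ k •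
        ((1 + (EM (V 0) (ρ 0 γ) - 1)) ^ (m * p ^ k) - 1)) =
        ((p : ℚ_[p]) ^ k)⁻¹ • (ρ 0 (γ ^ (m * p ^ k)) - 1) := by
      intro k
      rw [add_sub_cancel, map_smul, map_sub, map_pow, map_one, AlgEquiv.symm_apply_apply, ← map_pow,
        inv_pow]
    rw [← map_smul]
    intro φ v
    refine (h2 φ v).congr fun k => ?_
    beta_reduce
    rw [h4]
  have h5 := wl_tower h (fun k => pow_ne_zero k hp0) ht h3 n
  have h6 : D e n ((m : ℚ_[p]) • (EM (V 0)).symm ℓ) w ∈ W := by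
    by_contra hcon
    obtain ⟨φ, hφ, hφW⟩ := Submodule.exists_le_ker_of_notMem hcon
    have h7 := h5 φ w
    have h8 : ∀ k : ℕ, φ ((((p : ℚ_[p]) ^ k)⁻¹ • (ρ n (γ ^ (m * p ^ k)) - 1)) w) = 0 := by
      intro k
      have h9 : (((p : ℚ_[p]) ^ k)⁻¹ • (ρ n (γ ^ (m * p ^ k)) - 1)) w ∈ W := by
        rw [LinearMap.smul_apply, LinearMap.sub_apply, Module.End.one_apply]
        refine W.smul_mem _ (W.sub_mem (hU _ ?_ w hw) hw)
        rw [pow_mul]
        exact U.pow_mem hmU _
      exact hφW h9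
    simp only [h8] at h7
    exact hφ (tendsto_nhds_unique h7 tendsto_const_nhds)
  have hm0 : (m : ℚ_[p]) ≠ 0 := by exact_mod_cast hm.ne'
  rw [map_smul, LinearMap.smul_apply] at h6
  have h7 := W.smul_mem (m : ℚ_[p])⁻¹ h6
  rwa [inv_smul_smul₀ hm0] at h7

/-- The subspaces which are stable under the Lie algebra are stable under the elements near to
`1`. -/
theorem stab_of_aa (h : Equi e ρ) (W : Submodule ℚ_[p] (V 0))
    (hW : ∀ x ∈ aa e ρ, ∀ w ∈ W, x w ∈ W) {γ : G} (hγ : γ ∈ U0 (ρ 0)) :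
    ∀ w ∈ W, ρ 0 γ w ∈ W := by
  have _ := ultraM (p := p) (finrank ℚ_[p] (V 0))
  have _ := completeM (p := p) (finrank ℚ_[p] (V 0))
  have hx : ‖EM (V 0) (ρ 0 γ) - 1‖ ≤ 1 / 4 := le_of_lt hγ
  obtain ⟨ℓ, hℓ⟩ := Log.exists_log (p := p) hx
  let S : Subalgebra ℚ_[p] (Mat (finrank ℚ_[p] (V 0)) ℚ_[p]) :=
    { carrier := {M | ∀ w ∈ W, (EM (V 0)).symm M w ∈ W}
      mul_mem' := by
        intro a b ha hb w hw
        rw [map_mul]
        exact ha _ (hb w hw)
      add_mem' := by
        intro a b ha hb w hw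
        rw [map_add]
        exact W.add_mem (ha w hw) (hb w hw)
      algebraMap_mem' := by
        intro c w hw
        rw [AlgEquiv.commutes]
        exact W.smul_mem c hw }
  have hS : ∀ M, M ∈ S ↔ ∀ w ∈ W, (EM (V 0)).symm M w ∈ W := fun M => Iff.rfl
  have hcl : IsClosed (S : Set (Mat (finrank ℚ_[p] (V 0)) ℚ_[p])) :=
    Submodule.closed_of_finiteDimensional (Subalgebra.toSubmodule S)
  have h1 := Log.mem_of_log S hcl hx hℓ ((hS ℓ).2 (hW _ (log_mem_aa h hγ hℓ)))
  intro w hw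
  have h2 := (hS _).1 h1 w hw
  rw [map_sub, AlgEquiv.symm_apply_apply, map_one, LinearMap.sub_apply, Module.End.one_apply] at h2
  have h3 := W.add_mem h2 hw
  rwa [sub_add_cancel] at h3

open Pool.Agent.Y114.GF in
/-- **If the representation is not semisimple, there is a stable Lie algebra of nilpotent
operators which respect all the stable subspaces of the tensor powers.** -/
theorem exists_nil_of_not_semi [TopologicalSpace G] [IsTopologicalGroup G] [CompactSpace G]
    (h : Equi e ρ) (hr : Cont (ρ 0)) (hns : ¬ Semi (ρ 0) (⊤ : Subgroup G)) : ∃ J, IsNil e ρ J := by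
  by_contra hcon
  have H : NoNil (aa e ρ) := by
    by_contra H
    exact hcon (exists_isNil h H)
  apply hns
  have hfi := U0_finiteIndex (ρ 0) hr
  have h1 : Semi (ρ 0) (U0 (ρ 0)) := by
    intro W hW
    obtain ⟨W', hW', hc⟩ := exists_compl (aa_jclosed e ρ) H W (by
      intro x hx w hw
      refine hx 0 W ⟨(U0 (ρ 0)).normalCore, inferInstance, inferInstance, ?_⟩ w hw
      intro u hu
      exact hW u ((U0 (ρ 0)).normalCore_le hu))
    exact ⟨W', fun g hg => stab_of_aa h W' hW' hg, hc⟩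
  refine semi_of_le (ρ 0) le_top ?_ h1
  rw [Subgroup.relIndex_top_right]
  exact hfi.index_ne_zero

end main

end Pool.Agent.N536.SL
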