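import Mathlib

/-!
# Endomorphisms all of whose powers have trace zero are nilpotent
-/

set_option autoImplicit false
set_option linter.unusedSectionVars false

namespace Pool.Agent.N536.SL

open Module Polynomial

variable {K V : Type*} [Field K] [CharZero K] [AddCommGroup V] [Module K V]
  [FiniteDimensional K V]

theorem idem_zero {e : End K V} (he : e * e = e) (ht : LinearMap.trace K V e = 0) : e = 0 := by
  have h1 : LinearMap.IsProj (LinearMap.range e) e := by
    refine ⟨fun x => ⟨x, rfl⟩, ?_⟩
    rintro _ ⟨y, rfl⟩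
    rw [← Module.End.mul_apply, he]
  have h2 := h1.trace
  rw [ht] at h2
  have h3 : finrank K (LinearMap.range e) = 0 := by exact_mod_cast h2.symm
  rw [Submodule.finrank_eq_zero] at h3
  exact LinearMap.range_eq_bot.1 h3

theorem trace_aeval_mul {f : End K V} (h : ∀ m : ℕ, LinearMap.trace K V (f ^ (m + 1)) = 0)
    (q : K[X]) : LinearMap.trace K V (aeval f (X * q)) = 0 := by
  induction q using Polynomial.induction_on' with
  | add p q hp hq => rw [mul_add, map_add, map_add, hp, hq, add_zero]
  | monomial n c =>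
    rw [X_mul_monomial, aeval_monomial, ← Algebra.smul_def, map_smul, h, smul_zero]

/-- If all the powers of `f` have trace zero, then `f` is nilpotent. -/
theorem nilp_of_trace {f : End K V} (h : ∀ m : ℕ, LinearMap.trace K V (f ^ (m + 1)) = 0) :
    IsNilpotent f := by
  obtain ⟨a, g, hg, hfg⟩ : ∃ (a : ℕ) (g : K[X]), ¬ X ∣ g ∧ f.charpoly = X ^ a * g := by
    have h0 : f.charpoly ≠ 0 := (LinearMap.charpoly_monic f).ne_zero
    have := (finiteMultiplicity_of_degree_pos_of_monic (p := (X : K[X]))
      (by rw [degree_X]; exact zero_lt_one) monic_X h0).exists_eq_pow_mul_and_not_dvd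
    obtain ⟨g, hg, hg'⟩ := this
    exact ⟨_, g, hg', hg⟩
  have hcop : IsCoprime (X ^ (a + 1) : K[X]) g :=
    IsCoprime.pow_left ((irreducible_X).coprime_iff_not_dvd.2 hg)
  obtain ⟨u, v, huv⟩ := hcop
  have hch : aeval f (X ^ a * g) = 0 := by
    rw [← hfg]
    exact LinearMap.aeval_self_charpoly f
  set e := aeval f (u * X ^ (a + 1)) with he
  have h1 : e = 0 := by
    apply idem_zero
    · have h2 : (u * X ^ (a + 1)) * (u * X ^ (a + 1)) = u * X ^ (a + 1) -
          (u * v * X) * (X ^ a * g) := by
        have : u * X ^ (a + 1) = 1 - v * g := by rw [← huv]; ring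
        calc _ = (u * X ^ (a + 1)) * (1 - v * g) := by rw [← this]
          _ = _ := by ring
      rw [he, ← map_mul, h2, map_sub, map_mul (aeval f) (u * v * X), hch, mul_zero, sub_zero]
    · have h3 : u * X ^ (a + 1) = X * (u * X ^ a) := by ring
      rw [he, h3]
      exact trace_aeval_mul h _
  refine ⟨a, ?_⟩
  have h4 : (X ^ a : K[X]) = X ^ a * (u * X ^ (a + 1)) + v * (X ^ a * g) := by
    calc (X ^ a : K[X]) = X ^ a * (u * X ^ (a + 1) + v * g) := by rw [huv, mul_one]
      _ = _ := by ring
  have h5 := congrArg (aeval f) h4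
  rw [map_add, map_mul, ← he, h1, mul_zero, zero_add, map_mul, hch, mul_zero, map_pow,
    aeval_X] at h5
  exact h5

end Pool.Agent.N536.SL
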